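import Pool.Agent.T44.GB.Ln
import Pool.Agent.T44.GA.Rt

/-!
# Hypergeometric families at positive and negative points
-/

set_option autoImplicit false
set_option linter.unusedSectionVars false

namespace Pool.Agent.T44.GB

/-- the logarithm of the point `1 / t` -/
theorem log_inv_real {t : ℝ} (ht : t ≠ 0) : ∃ θ : ℝ, (Complex.log (1 / (t : ℂ)) =
    -((Real.log |t| : ℝ) : ℂ) + (θ : ℂ) * Complex.I) ∧ (0 < t → θ = 0) ∧ (t < 0 → θ = Real.pi) := by
  rcases lt_or_gt_of_ne ht with h | h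
  · refine ⟨Real.pi, ?_, fun h' => absurd h (not_lt.2 h'.le), fun _ => rfl⟩
    have h1 : (1 / (t : ℂ)) = ((-(1 / |t|) : ℝ) : ℂ) := by
      rw [abs_of_neg h]
      push_cast
      field_simp
    have h2 : 0 < 1 / |t| := by positivity
    rw [h1, Complex.ofReal_neg]
    have h3 : Complex.log (-((1 / |t| : ℝ) : ℂ)) = ((Real.log (1 / |t|) : ℝ) : ℂ) + Real.pi * Complex.I := by
      rw [Complex.log, norm_neg, Complex.norm_real, Real.norm_of_nonneg h2.le]
      have h4 : Complex.arg (-((1 / |t| : ℝ) : ℂ)) = Real.pi := by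
        rw [← Complex.ofReal_neg]
        exact Complex.arg_ofReal_of_neg (by linarith)
      rw [h4]
    rw [h3, one_div, Real.log_inv]
    push_cast
    rfl
  · refine ⟨0, ?_, fun _ => rfl, fun h' => absurd h (not_lt.2 h'.le)⟩
    rw [abs_of_pos h]
    have h1 : (1 / (t : ℂ)) = ((1 / t : ℝ) : ℂ) := by push_cast; rfl
    rw [h1, ← Complex.ofReal_log (by positivity), one_div, Real.log_inv]
    push_cast
    ring

theorem log_mem {x₀ t : ℝ} (hx₀ : 0 < x₀) (ht : x₀ < |t|) : Complex.log (1 / (t : ℂ)) ∈ HP x₀ := by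
  have ht0 : t ≠ 0 := by
    rintro rfl
    rw [abs_zero] at ht
    linarith
  obtain ⟨θ, h, -⟩ := log_inv_real ht0
  rw [h]
  exact mem_HP hx₀ ht

theorem exp_log_inv {t : ℝ} (ht : t ≠ 0) : Complex.exp (Complex.log (1 / (t : ℂ))) = 1 / (t : ℂ) :=
  Complex.exp_log (one_div_ne_zero (by exact_mod_cast ht))

section inf

open Pool.Agent.T44.GO Pool.Agent.Y119.HY Matrix
open Pool.Agent.T44.GF (Zm)

variable {n : ℕ} {Q : Polynomial ℚ} {γ : Fin n → ℚ} {d : ℕ} {aa : Fin n → ℤ}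

/-- the solution as a function of `u` -/
noncomputable def Yu (n : ℕ) (Q : Polynomial ℚ) (γ : Fin n → ℚ) (d : ℕ) (aa : Fin n → ℤ) (u : ℂ) : Matrix (Fin n) (Fin n) ℂ :=
  Hf (gc n Q γ) (Complex.exp (d * u)) * Matrix.diagonal fun j => Complex.exp (aa j * u)

/-- the solution at the point `1 / t` -/
noncomputable def Yt (n : ℕ) (Q : Polynomial ℚ) (γ : Fin n → ℚ) (d : ℕ) (aa : Fin n → ℤ) (t : ℂ) : Matrix (Fin n) (Fin n) ℂ :=
  Matrix.of fun i j => ∑' k : ℕ, (((-(γ j + k)) ^ (i : ℕ) * cc n Q (γ j) k : ℚ) : ℂ) * t ^ (-(aa j + d * k) : ℤ)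

theorem Yu_num {u t : ℂ} (ht : t ≠ 0) (hu : Complex.exp u = 1 / t) : Yu n Q γ d aa u = Yt n Q γ d aa t := by
  ext i j
  unfold Yu Yt
  rw [mul_diagonal, Matrix.of_apply]
  have h6 : Complex.exp ((aa j : ℂ) * u) = t ^ (-aa j) := by
    rw [Complex.exp_int_mul, hu, one_div, _root_.inv_zpow, _root_.zpow_neg]
  have h9 : Complex.exp ((d : ℂ) * u) = t ^ (-(d : ℤ)) := by
    rw [Complex.exp_nat_mul, hu, one_div, inv_pow, _root_.zpow_neg, zpow_natCast]
  rw [h6, h9]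
  show (∑' k : ℕ, gc n Q γ k i j * (t ^ (-(d : ℤ))) ^ k) * _ = _
  rw [← tsum_mul_right]
  refine tsum_congr fun k => ?_
  have h7 : gc n Q γ k i j = (((-(γ j + k)) ^ (i : ℕ) * cc n Q (γ j) k : ℚ) : ℂ) := by
    unfold gc
    rw [cm_apply, cf_gm, Matrix.of_apply]
  rw [h7, mul_assoc]
  congr 1
  rw [← zpow_natCast, ← _root_.zpow_mul, ← zpow_add₀ ht]
  congr 1
  ring

theorem Yu_pos (haa : ∀ j, (aa j : ℚ) = d * γ j) {x : ℝ} (hx : 0 < x) :
    Yu n Q γ d aa (-((Real.log x : ℝ) : ℂ)) = Yi n Q γ ((1 / x ^ d : ℝ) : ℂ) := by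
  unfold Yu Yi wp
  have h1 : Complex.exp ((d : ℂ) * -((Real.log x : ℝ) : ℂ)) = ((1 / x ^ d : ℝ) : ℂ) := by
    rw [Complex.exp_nat_mul, exp_pos' hx]
    push_cast
    rw [one_div, inv_pow, one_div]
  rw [h1]
  congr 2
  funext j
  have e1 : Complex.log (((1 / x ^ d : ℝ)) : ℂ) = -(d * Real.log x : ℝ) := by
    rw [← Complex.ofReal_log (by positivity), one_div, Real.log_inv, Real.log_pow]
    push_cast
    ring
  rw [e1]
  congr 1
  have e3 : ((aa j : ℤ) : ℂ) = (d : ℂ) * (γ j : ℂ) := by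
    have := congrArg (fun q : ℚ => (q : ℂ)) (haa j)
    push_cast at this
    exact_mod_cast this
  rw [e3]
  push_cast
  ring

theorem Yu_an (hP : S_PGR) (h : OD n Q γ) (hd : d ≠ 0) (i j : Fin n) :
    AnalyticOnNhd ℂ (fun u => Yu n Q γ d aa u i j) (HP 1) := by
  unfold Yu
  simp only [mul_diagonal]
  intro u hu
  have hu1 : ‖Complex.exp ((d : ℂ) * u)‖ < 1 := by
    rw [Complex.norm_exp]
    have h1 : u.re < 0 := by
      have h2 : u.re < -Real.log 1 := hu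
      rwa [Real.log_one, neg_zero] at h2
    have h3 : ((d : ℂ) * u).re = d * u.re := by simp
    rw [h3, Real.exp_lt_one_iff]
    have : (0 : ℝ) < d := by exact_mod_cast Nat.pos_of_ne_zero hd
    nlinarith
  have h1 : AnalyticAt ℂ (fun z => Hf (gc n Q γ) z i j) (Complex.exp ((d : ℂ) * u)) :=
    ps_an (gc_PG hP h i j) _ (by rwa [Metric.mem_ball, dist_zero_right])
  have h2 : AnalyticAt ℂ (fun u : ℂ => Complex.exp ((d : ℂ) * u)) u := (analyticAt_const.mul analyticAt_id).cexp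
  have h3 : AnalyticAt ℂ (fun u : ℂ => Complex.exp ((aa j : ℂ) * u)) u := (analyticAt_const.mul analyticAt_id).cexp
  exact (AnalyticAt.fun_comp (g := fun z => Hf (gc n Q γ) z i j) (f := fun u : ℂ => Complex.exp ((d : ℂ) * u)) h1 h2).mul h3

theorem Yu_form (hP : S_PGR) (h : OD n Q γ) (hd : d ≠ 0) (haa : ∀ j, (aa j : ℚ) = d * γ j) {u : ℂ} (hu : u ∈ HP 1) :
    (Yu n Q γ d aa u)ᵀ * cm (Jm n Q) * Yu n Q γ d aa u = cm (P0 n Q γ) := by
  ext i j
  rw [← sub_eq_zero]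
  have han : AnalyticOnNhd ℂ (fun u => ((Yu n Q γ d aa u)ᵀ * cm (Jm n Q) * Yu n Q γ d aa u) i j - cm (P0 n Q γ) i j)
      (HP 1) := by
    simp only [Matrix.mul_apply, Matrix.transpose_apply]
    exact (Finset.analyticOnNhd_fun_sum _ fun l _ => (Finset.analyticOnNhd_fun_sum _ fun c _ =>
      (Yu_an hP h hd c i).mul analyticOnNhd_const).mul (Yu_an hP h hd l j)).sub analyticOnNhd_const
  refine line_zero (θ := 0) one_pos han (fun x hx => ?_) hu
  have e1 : -((Real.log x : ℝ) : ℂ) + ((0 : ℝ) : ℂ) * Complex.I = -((Real.log x : ℝ) : ℂ) := by simp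
  have hx0 : 0 < x := by linarith
  have hxd : (1 : ℝ) < x ^ d := one_lt_pow₀ hx hd
  simp only [e1]
  rw [Yu_pos haa hx0, form_Yi hP h (w := 1 / x ^ d) (by positivity) (by rw [div_lt_one (by linarith)]; exact hxd), sub_self]

/-- the values of the normalised solution -/
theorem Zu_eq (hP : S_PGR) (h : OD n Q γ) (hd : d ≠ 0) (haa : ∀ j, (aa j : ℚ) = d * γ j) {C x₀ : ℝ} (hC : 0 < C)
    (hc : ∀ i j m, |((PowerSeries.coeff m (Zz n Q γ d hd aa i j) : ℚ) : ℝ)| ≤ C ^ (m + 1)) (hx₀ : C ≤ x₀) (hx₁ : 1 ≤ x₀)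
    {u : ℂ} (hu : u ∈ HP x₀) :
    Zc (fun i j => Zz n Q γ d hd aa i j) (Complex.exp u) * ((Matrix.diagonal fun b => Complex.exp (aa b * u)) *
      (cm (g0 γ))ᵀ) = (Yu n Q γ d aa u)ᵀ := by
  have hsub : HP x₀ ⊆ HP 1 := by
    intro v hv
    have h1 : v.re < -Real.log x₀ := hv
    show v.re < -Real.log 1
    rw [Real.log_one]
    have := Real.log_nonneg hx₁
    linarith
  have hpos : 0 < x₀ := by linarith
  ext i j
  rw [← sub_eq_zero]
  have han : AnalyticOnNhd ℂ (fun u => (Zc (fun i j => Zz n Q γ d hd aa i j) (Complex.exp u) *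
      ((Matrix.diagonal fun b => Complex.exp (aa b * u)) * (cm (g0 γ))ᵀ)) i j - (Yu n Q γ d aa u)ᵀ i j) (HP x₀) := by
    simp only [Matrix.mul_apply (N := (Matrix.diagonal fun b => Complex.exp (aa b * _)) * (cm (g0 γ))ᵀ), diagonal_mul]
    refine (Finset.analyticOnNhd_fun_sum _ fun l _ => (Zc_an hC hc hx₀ i l).mul
      (AnalyticOnNhd.mul (fun u _ => (analyticAt_const.mul analyticAt_id).cexp) analyticOnNhd_const)).sub ?_
    exact (Yu_an hP h hd j i).mono hsub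
  refine line_zero (θ := 0) hpos han (fun x hx => ?_) hu
  have e1 : -((Real.log x : ℝ) : ℂ) + ((0 : ℝ) : ℂ) * Complex.I = -((Real.log x : ℝ) : ℂ) := by simp
  have hx1 : 1 < x := by linarith
  have hx0 : 0 < x := by linarith
  have hxc : (x : ℂ) ≠ 0 := by exact_mod_cast hx0.ne'
  simp only [e1]
  rw [Yu_pos haa hx0, exp_pos' hx0, Zc_real]
  have h2 : Zm (fun i j => Zz n Q γ d hd aa i j) x = evM x (Zz n Q γ d hd aa) := rfl
  have h3 : (Matrix.diagonal fun b => (x : ℂ) ^ aa b) * (Matrix.diagonal fun b => Complex.exp (aa b * -((Real.log x : ℝ) : ℂ))) = 1 := by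
    rw [Matrix.diagonal_mul_diagonal, ← Matrix.diagonal_one]
    congr 1
    funext b
    rw [Complex.exp_int_mul, exp_pos' hx0]
    push_cast
    rw [one_div, _root_.inv_zpow, mul_inv_cancel₀ (zpow_ne_zero _ hxc)]
  have h4 : (cm (g0 γ)⁻¹)ᵀ * (cm (g0 γ))ᵀ = 1 := by
    rw [← Matrix.transpose_mul, ← cm_mul, g0_mul h]
    have h1 : cm (1 : Matrix (Fin n) (Fin n) ℚ) = 1 := map_one _
    rw [h1, Matrix.transpose_one]
  rw [h2, Zv_eq hP h hd haa hx1]
  have h5 : (Yi n Q γ (((1 / x ^ d : ℝ)) : ℂ))ᵀ * (cm (g0 γ)⁻¹)ᵀ * (Matrix.diagonal fun b => (x : ℂ) ^ (aa b)) *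
      ((Matrix.diagonal fun b => Complex.exp (aa b * -((Real.log x : ℝ) : ℂ))) * (cm (g0 γ))ᵀ) =
      (Yi n Q γ (((1 / x ^ d : ℝ)) : ℂ))ᵀ * ((cm (g0 γ)⁻¹)ᵀ * ((Matrix.diagonal fun b => (x : ℂ) ^ aa b) *
        (Matrix.diagonal fun b => Complex.exp (aa b * -((Real.log x : ℝ) : ℂ)))) * (cm (g0 γ))ᵀ) := by
    simp only [Matrix.mul_assoc]
  rw [h5, h3, Matrix.mul_one, h4, Matrix.mul_one, sub_self]

end inf

section zero

open Pool.Agent.Y119.HY Pool.Agent.Y119.HZ Matrix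
open Pool.Agent.T44.GL (NZ NZ_c E_transpose)

variable {n : ℕ} {Q : Polynomial ℚ}

/-- the solution as a function of `u` -/
noncomputable def Yv (n : ℕ) (Q : Polynomial ℚ) (u : ℂ) : Matrix (Fin n) (Fin n) ℂ :=
  Hf (Hc n Q) (Complex.exp u) * Pool.Agent.Y119.HY.E (cm (Am n)) u

theorem Yv_pos {x : ℝ} : Yv n Q (-((Real.log x : ℝ) : ℂ)) = Hf (Hc n Q) (Complex.exp (-((Real.log x : ℝ) : ℂ))) *
    Pool.Agent.Y119.HY.E (cm (Am n)) (-((Real.log x : ℝ) : ℂ)) := rfl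

theorem Yv_form (hQ : QD n Q) {u : ℂ} (hu : u ∈ HP 1) :
    (Yv n Q u)ᵀ * cm (Jm n Q) * Yv n Q u = cm (Jm n Q) := by
  have hYan : ∀ i j, AnalyticOnNhd ℂ (fun u => Yv n Q u i j) (HP 1) := by
    intro i j
    unfold Yv
    simp only [Matrix.mul_apply]
    refine Finset.analyticOnNhd_fun_sum _ fun l _ => AnalyticOnNhd.mul (fun v hv => ?_) (E_an _ _ l j)
    have h1 : Complex.exp v ∈ Metric.ball (0 : ℂ) 1 := by
      rw [mem_ball_zero_iff]
      have := norm_exp_lt one_pos hv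
      simpa using this
    exact (Hf_an (sol_c hQ) Ac_nil i l _ h1).fun_comp analyticAt_cexp
  ext i j
  rw [← sub_eq_zero]
  have han : AnalyticOnNhd ℂ (fun u => ((Yv n Q u)ᵀ * cm (Jm n Q) * Yv n Q u) i j - cm (Jm n Q) i j) (HP 1) := by
    simp only [Matrix.mul_apply, Matrix.transpose_apply]
    exact (Finset.analyticOnNhd_fun_sum _ fun l _ => (Finset.analyticOnNhd_fun_sum _ fun c _ =>
      (hYan c i).mul analyticOnNhd_const).mul (hYan l j)).sub analyticOnNhd_const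
  refine line_zero (θ := 0) one_pos han (fun x hx => ?_) hu
  have e1 : -((Real.log x : ℝ) : ℂ) + ((0 : ℝ) : ℂ) * Complex.I = -((Real.log x : ℝ) : ℂ) := by simp
  have hx0 : 0 < x := by linarith
  simp only [e1]
  have h2 := Pool.Agent.T44.GA.Yr_form hQ hx
  unfold Pool.Agent.T44.GA.Yr at h2
  rw [Yv_pos, exp_pos' hx0, h2, sub_self]

theorem Yv_per (Ω : Matrix (Fin n) (Fin n) ℂ) (u : ℂ) :
    (Yv n Q u * Ω)ᵀ = Ωᵀ * Pool.Agent.Y119.HY.E ((NZ n).map (Int.castRingHom ℂ)) u *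
      Zc (fun i j => Hp n Q j i) (Complex.exp u) := by
  have h1 : Zc (fun i j => Hp n Q j i) (Complex.exp u) = (Hf (Hc n Q) (Complex.exp u))ᵀ := by
    ext i j
    rw [Matrix.transpose_apply]
    show ∑' m : ℕ, ((PowerSeries.coeff m (Hp n Q j i) : ℚ) : ℂ) * Complex.exp u ^ m =
      ∑' m : ℕ, Hc n Q m j i * Complex.exp u ^ m
    refine tsum_congr fun m => ?_
    have h2 : PowerSeries.coeff m (Hp n Q j i) = Hq n Q m j i := congrFun (congrFun (cf_Hp (Q := Q) m) j) i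
    rw [h2]
    rfl
  unfold Yv
  rw [NZ_c, E_transpose, h1, Matrix.transpose_mul, Matrix.transpose_mul, Matrix.mul_assoc]

end zero

end Pool.Agent.T44.GB
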