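import Pool.Agent.T44.GL.Mn
import Pool.Agent.T44.GL.Gw
import Pool.Agent.T44.GF.Cls
import Pool.Agent.Y124.TD.Ap3
import Pool.Agent.H82.GF.Abs
import Pool.Agent.H45.GF.Norm
import Pool.Agent.H33GF.Grow
import Pool.Agent.H91GF.Main
import Pool.Agent.H82.GF.CLSL
import Pool.Agent.H82.GF.CLSP
import Pool.Agent.H84GF.Main
import Pool.Agent.T44.GL.Hy
import Pool.Agent.T44.GL.Hs
import Pool.Agent.T44.GO.Sp
import Pool.Agent.T44.GB.Iv
import Pool.Agent.T44.GB.Ft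

/-!
# The library version of `FibresNearFewPeriods` (MP_f11a48_ag), with the explanations there
-/

set_option autoImplicit false

open PowerSeries

namespace Pool.Agent.T44.GB.Fn

/-- The arithmetic conditions in the definition of a G-function, for a power series with rational coefficients: geometric
growth of the coefficients and of their common denominators. -/
def GCond (g : ℚ⟦X⟧) : Prop := ∃ C : ℝ, (∀ m, |((coeff m g : ℚ) : ℝ)| ≤ C ^ (m + 1)) ∧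
  ∀ m, ∃ d : ℕ, 0 < d ∧ (d : ℝ) ≤ C ^ (m + 1) ∧ ∀ j ≤ m, ∃ a : ℤ, (d : ℚ) * coeff j g = a

/-- an integer polynomial as a power series with rational coefficients -/
noncomputable def toQ (P : Polynomial ℤ) : PowerSeries ℚ := ((P.map (Int.castRingHom ℚ) : Polynomial ℚ) : PowerSeries ℚ)

/-- The matrix `Ω exp(N log z) Z(z)` at `z = 1/x`, where `log z = log |z| + π i` if `z < 0`. -/
noncomputable def periods {n : ℕ} (Ω : Matrix (Fin n) (Fin n) ℂ) (N : Matrix (Fin n) (Fin n) ℤ)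
    (Z : Matrix (Fin n) (Fin n) ℚ⟦X⟧) (x : ℝ) : Matrix (Fin n) (Fin n) ℂ :=
  Ω * IsNilpotent.exp (Complex.log (1 / (x : ℂ)) • N.map (Int.castRingHom ℂ)) *
    Matrix.of fun a j => ((∑' m : ℕ, ((coeff m (Z a j) : ℚ) : ℝ) * (1 / x) ^ m : ℝ) : ℂ)

/-- The unknowns `1/x`, `log x` and the entries of the matrix `M`. -/
noncomputable def point {n : ℕ} (x : ℝ) (M : Matrix (Fin n) (Fin n) ℂ) (o : Option (Option (Fin n × Fin n))) : ℂ :=
  o.elim ((1 / x : ℝ) : ℂ) fun o => o.elim ((Real.log x : ℝ) : ℂ) fun p => M p.1 p.2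

/-- Every polynomial relation `F(1/x, log x, P(x)) = 0` which holds for the period matrices `P(x)` for all real `x > x₀` also
holds for `g P(x)`. (For small positive `z = 1/x`; the fibres with `z < 0` are not used here.) -/
def IsGalois {n : ℕ} (Ω : Matrix (Fin n) (Fin n) ℂ) (N : Matrix (Fin n) (Fin n) ℤ) (Z : Matrix (Fin n) (Fin n) ℚ⟦X⟧) (x₀ : ℕ)
    (g : Matrix (Fin n) (Fin n) ℂ) : Prop :=
  ∀ F : MvPolynomial (Option (Option (Fin n × Fin n))) ℂ,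
    (∀ x : ℝ, x₀ < x → MvPolynomial.eval (point x (periods Ω N Z x)) F = 0) →
    ∀ x : ℝ, x₀ < x → MvPolynomial.eval (point x (g * periods Ω N Z x)) F = 0

/-- the number of additional periods: `log x` is one if the central fibre is degenerate, that is, if `N ≠ 0` -/
def extra {n : ℕ} (N : Matrix (Fin n) (Fin n) ℤ) : ℕ := if N = 0 then 0 else 1

/-- Up to one common scalar `λ`, all entries of `C₀` and of `Ω exp (v N)`, for some `v`, are algebraic over a field generated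
by `s` complex numbers. (The matrix `Ω exp (v N)` is the period matrix of the limit for another choice of the parameter.) -/
def FewPeriods (s : ℕ) {r n : ℕ} (C₀ : Matrix (Fin r) (Fin r) ℂ) (Ω : Matrix (Fin n) (Fin n) ℂ)
    (N : Matrix (Fin n) (Fin n) ℤ) : Prop :=
  ∃ (θ : Fin s → ℂ) (lam v : ℂ), lam ≠ 0 ∧
    (∀ i j, IsAlgebraic (IntermediateField.adjoin ℚ (Set.range θ)) (C₀ i j / lam)) ∧
    ∀ i j, IsAlgebraic (IntermediateField.adjoin ℚ (Set.range θ))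
      ((Ω * IsNilpotent.exp (v • N.map (Int.castRingHom ℂ))) i j / lam)

/-- `T` is (the set of complex points of) a `K`-subtorsor of `GL_B = Iso (M_dR, M_B)`: it is closed under `x y⁻¹ z`, and
it is defined in `GL_B` by polynomials with coefficients in `K`. -/
def IsSubtorsor (K : Subfield ℂ) {B : Type} [Fintype B] [DecidableEq B] (T : Set (Matrix B B ℂ)) : Prop :=
  (∀ x ∈ T, ∀ y ∈ T, ∀ z ∈ T, x * y⁻¹ * z ∈ T) ∧ ∃ I : Set (MvPolynomial (B × B) K), ∀ x : Matrix B B ℂ, x ∈ T ↔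
    IsUnit x ∧ ∀ p ∈ I, MvPolynomial.eval (fun b => x b.1 b.2) (MvPolynomial.map (algebraMap K ℂ) p) = 0

/-- the block matrix `x ⊕ X_1 ⊕ … ⊕ X_k` -/
noncomputable def total {r n k : ℕ} (x : Matrix (Fin r) (Fin r) ℂ) (X : Fin k → Matrix (Fin n) (Fin n) ℂ) :
    Matrix (Fin r ⊕ (Fin n × Fin k)) (Fin r ⊕ (Fin n × Fin k)) ℂ :=
  Matrix.fromBlocks x 0 0 (Matrix.blockDiagonal X)

/-- nondegenerate alternating forms -/
def Symplectic {n : ℕ} (B : Matrix (Fin n) (Fin n) ℂ) : Prop := IsUnit B ∧ B.transpose = -B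

/-- The form is zero (special linear group), or nondegenerate and alternating, or nondegenerate and symmetric, and `s` is
smaller than the codimension of all proper subalgebras of the Lie algebra of its group. -/
def Classical {n : ℕ} (s : ℕ) (B : Matrix (Fin n) (Fin n) ℂ) : Prop :=
  (B = 0 ∧ 3 ≤ n ∧ s + 2 ≤ n) ∨ (Symplectic B ∧ 4 ≤ n ∧ s + 2 ≤ n) ∨
    (IsUnit B ∧ B.transpose = B ∧ 5 ≤ n ∧ n ≠ 6 ∧ s + 3 ≤ n)

/-- All matrices of determinant `1` which respect `B` preserve the relations between the periods. -/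
def BigMonodromy {n : ℕ} (Ω : Matrix (Fin n) (Fin n) ℂ) (N : Matrix (Fin n) (Fin n) ℤ)
    (Z : Matrix (Fin n) (Fin n) ℚ⟦X⟧) (x₀ : ℕ) (B : Matrix (Fin n) (Fin n) ℂ) : Prop :=
  ∀ g : Matrix (Fin n) (Fin n) ℂ, g.det = 1 → g * B * g.transpose = B → IsGalois Ω N Z x₀ g

/-- The isomorphisms `z ⊕ … ⊕ z ⊕ X_1 ⊕ … ⊕ X_k` of an `r`-fold sum of the object `ℚ(-1)` and of the `M_l` which respect the
polarisations (`Q_l` on the de Rham side, `B` on the Betti side), with values in `ℚ(-w_l)`, and the identifications of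
`det M_l` with `ℚ(-d_l)` up to a twist. -/
def torsorOf {n k : ℕ} (r : ℕ) (B : Matrix (Fin n) (Fin n) ℂ) (Q : Fin k → Matrix (Fin n) (Fin n) ℂ) (w d : Fin k → ℤ)
    (δ : Fin k → ℂ) : Set (Matrix (Fin r ⊕ (Fin n × Fin k)) (Fin r ⊕ (Fin n × Fin k)) ℂ) :=
  {y | ∃ z : ℂ, z ≠ 0 ∧ ∃ X : Fin k → Matrix (Fin n) (Fin n) ℂ, y = total (z • 1) X ∧
    ∀ l, X l * Q l * (X l).transpose = z ^ (w l) • B ∧ (Symplectic B ∨ (X l).det = δ l * z ^ (d l))}

/-- the number `2πi` -/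
noncomputable def twoPiI : ℂ := 2 * Real.pi * Complex.I

/-- The rational numbers `x_1, …, x_k` have denominators at most `M^c`, all of them are in `[M, M + M^c]` or all of them are in
`[-M - M^c, -M]`, and they are at distance at least `G` of each other. -/
def InWindow {k : ℕ} (G M : ℕ) (c : ℝ) (x : Fin k → ℚ) : Prop :=
  (∀ l, ((x l).den : ℝ) ≤ (M : ℝ) ^ c) ∧
    ((∀ l, (M : ℝ) ≤ x l ∧ (x l : ℝ) ≤ M + (M : ℝ) ^ c) ∨ ∀ l, (M : ℝ) ≤ -x l ∧ (-x l : ℝ) ≤ M + (M : ℝ) ^ c) ∧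
    ∀ i j, i ≠ j → (G : ℚ) ≤ |x i - x j|

/-- The conclusion for the fibres at `z = 1 / t_1, …, 1 / t_k`, for all forms `B` such that the monodromy is big. -/
def Full {n r k : ℕ} (D s : ℕ) (C₀ : Matrix (Fin r) (Fin r) ℂ) (Ω : Matrix (Fin n) (Fin n) ℂ)
    (N : Matrix (Fin n) (Fin n) ℤ) (Z : Matrix (Fin n) (Fin n) ℚ⟦X⟧) (x₀ : ℕ) (t : Fin k → ℚ) : Prop :=
  (∀ l, IsUnit (periods Ω N Z (t l))) ∧
  ∀ B : Matrix (Fin n) (Fin n) ℂ, Classical s B → BigMonodromy Ω N Z x₀ B →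
  ∀ K : Subfield ℂ, FiniteDimensional ℚ K → Module.finrank ℚ K ≤ D →
  ∀ T : Set (Matrix (Fin r ⊕ (Fin n × Fin k)) (Fin r ⊕ (Fin n × Fin k)) ℂ), IsSubtorsor K T →
  total C₀ (fun l => periods Ω N Z (t l)) ∈ T →
  -- 1: relative case
  (∀ (Q : Fin k → Matrix (Fin n) (Fin n) ℂ) (μ : Fin k → ℂ) (x : Matrix (Fin r) (Fin r) ℂ)
      (X Y : Fin k → Matrix (Fin n) (Fin n) ℂ), (∀ l, μ l ≠ 0) → (∀ l, X l * Q l * (X l).transpose = μ l • B) →
      (∀ l, Y l * Q l * (Y l).transpose = μ l • B) → (∀ l, Symplectic B ∨ (X l).det = (Y l).det) →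
      total x X ∈ T → total x Y ∈ T) ∧
  -- 2: absolute case
  (0 < r → C₀ = twoPiI • 1 → ∀ (Q : Fin k → Matrix (Fin n) (Fin n) ℂ) (w d : Fin k → ℤ) (δ : Fin k → ℂ),
      T ⊆ torsorOf r B Q w d δ → T = torsorOf r B Q w d δ)

/-! ## Hypergeometric families -/

/-- `S` is the smallest `K`-subtorsor which contains the period matrix `c` -/
def IsOmega (K : Subfield ℂ) {B : Type} [Fintype B] [DecidableEq B] (c : Matrix B B ℂ) (S : Set (Matrix B B ℂ)) : Prop :=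
  IsSubtorsor K S ∧ c ∈ S ∧ ∀ T : Set (Matrix B B ℂ), IsSubtorsor K T → c ∈ T → S ⊆ T

/-- the power series `k + ε` in the variable `ε` -/
noncomputable def shift (k : ℕ) : PowerSeries ℚ := C (k : ℚ) + X

/-- `a_k(ε) = ∏_{l < k} ∏_j ((l + ε)^2 - β_j^2) / (l + 1 + ε)^(2m)`. The series `∑_k a_k(ε) z^(k + ε)` solves the
equation `(θ^n - z ∏_j (θ^2 - β_j^2)) f = ε^n z^ε`, hence its coefficients `f_j` at `ε^j` with `j < n = 2m` are
solutions of the homogeneous equation. -/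
noncomputable def frob {m : ℕ} (β : Fin m → ℚ) (k : ℕ) : PowerSeries ℚ :=
  ∏ l ∈ Finset.range k, ((∏ j, (shift l ^ 2 - C (β j ^ 2))) * ((shift (l + 1))⁻¹) ^ (2 * m))

/-- The matrix with the entries `(θ^i f_j)(1 / t)`, where `f_j(z)` is the coefficient of `ε^j` in the series
`∑_k a_k(ε) z^(k + ε)`, `z^ε = ∑_l (log z)^l ε^l / l!`. -/
noncomputable def Y {m : ℕ} (β : Fin m → ℚ) (t : ℚ) : Matrix (Fin (2 * m)) (Fin (2 * m)) ℂ :=
  Matrix.of fun i j => ∑ l ∈ Finset.range ((j : ℕ) + 1), (Complex.log (1 / (t : ℂ)) ^ l / l.factorial) *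
    ∑' k : ℕ, ((coeff ((j : ℕ) - l) (shift k ^ (i : ℕ) * frob β k) : ℚ) : ℂ) * (1 / (t : ℂ)) ^ k

/-- the polynomial `∏_j (x^2 - β_j^2)` -/
noncomputable def poly {m : ℕ} (β : Fin m → ℚ) : Polynomial ℚ := ∏ j, (Polynomial.X ^ 2 - Polynomial.C (β j ^ 2))

/-- The matrix of the intersection form: the entry `(i, j)` is `(-1)^i q_{i+j+1-n}` for `i + j + 1 ≥ n` and `0`
otherwise, where `q_l` are the coefficients of `∏_j (x^2 - β_j^2)`. -/
noncomputable def J {m : ℕ} (β : Fin m → ℚ) : Matrix (Fin (2 * m)) (Fin (2 * m)) ℂ :=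
  Matrix.of fun i j => if 2 * m ≤ (i : ℕ) + j + 1 then (((-1) ^ (i : ℕ) * (poly β).coeff (i + j + 1 - 2 * m) : ℚ) : ℂ) else 0

/-- the nilpotent matrix with the entries `1` below the diagonal -/
def lower (n : ℕ) : Matrix (Fin n) (Fin n) ℤ := Matrix.of fun i j => if (i : ℕ) = j + 1 then 1 else 0

/-- The isomorphisms `z ⊕ X_1 ⊕ … ⊕ X_k` of `ℚ(-1) ⊕ M_(t_1) ⊕ … ⊕ M_(t_k)` which respect the polarisations, with values in
`ℚ(-w)`. -/
def respecting {m : ℕ} (k : ℕ) (β : Fin m → ℚ) (w : ℕ) (B : Matrix (Fin (2 * m)) (Fin (2 * m)) ℂ) :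
    Set (Matrix (Fin 1 ⊕ (Fin (2 * m) × Fin k)) (Fin 1 ⊕ (Fin (2 * m) × Fin k)) ℂ) :=
  {y | ∃ z : ℂ, z ≠ 0 ∧ ∃ X : Fin k → Matrix (Fin (2 * m)) (Fin (2 * m)) ℂ, y = total (z • 1) X ∧
    ∀ l, X l * J β * (X l).transpose = z ^ w • B}

/-! ## Hypergeometric families near `z = ∞` -/

/-- The exponents at `z = ∞`, multiplied with `d`: these are `a_1, …, a_m, -a_1, …, -a_m`. -/
def expo {m : ℕ} (a : Fin m → ℕ) (j : Fin (2 * m)) : ℤ :=
  if h : (j : ℕ) < m then (a ⟨j, h⟩ : ℤ) else -(a ⟨j - m, by omega⟩ : ℤ)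

/-- `c_k(γ) = ∏_{l < k} (γ + l)^(2m) / ∏_j ((γ + l + 1)^2 - β_j^2)`. For `γ = ± β_j` the series `∑_k c_k(γ) z^(-γ - k)` is a
solution of the equation `(θ^(2m) - z ∏_j (θ^2 - β_j^2)) f = 0`. -/
noncomputable def cinf {m : ℕ} (β : Fin m → ℚ) (γ : ℚ) (k : ℕ) : ℚ :=
  ∏ l ∈ Finset.range k, (γ + l) ^ (2 * m) / (poly β).eval (γ + l + 1)

/-- The matrix with the entries `(θ^i f_j)(t^d)`, where `f_j(z) = ∑_k c_k(γ_j) z^(-γ_j - k)` and `γ_j = expo a j / d`. -/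
noncomputable def Yinf {m : ℕ} (a : Fin m → ℕ) (d : ℕ) (t : ℚ) : Matrix (Fin (2 * m)) (Fin (2 * m)) ℂ :=
  Matrix.of fun i j => ∑' k : ℕ, (((-((expo a j : ℚ) / d + k)) ^ (i : ℕ) *
    cinf (fun l => (a l : ℚ) / d) ((expo a j : ℚ) / d) k : ℚ) : ℂ) * (t : ℂ) ^ (-(expo a j + d * k) : ℤ)

/-- the matrix of the leading coefficients `(-γ_j)^i` -/
noncomputable def lead {m : ℕ} (a : Fin m → ℕ) (d : ℕ) : Matrix (Fin (2 * m)) (Fin (2 * m)) ℂ :=
  Matrix.of fun i j => (((-((expo a j : ℚ) / d)) ^ (i : ℕ) : ℚ) : ℂ)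

/-- The isomorphisms `X_1 ⊕ … ⊕ X_k` of `M_(t_1) ⊕ … ⊕ M_(t_k)` which respect the polarisations up to a common factor, that is,
the polarisations with values in the same object of rank one. -/
def similitudes {m : ℕ} (k : ℕ) (β : Fin m → ℚ) (B : Matrix (Fin (2 * m)) (Fin (2 * m)) ℂ) :
    Set (Matrix (Fin 0 ⊕ (Fin (2 * m) × Fin k)) (Fin 0 ⊕ (Fin (2 * m) × Fin k)) ℂ) :=
  {y | ∃ μ : ℂ, μ ≠ 0 ∧ ∃ X : Fin k → Matrix (Fin (2 * m)) (Fin (2 * m)) ℂ, y = total 1 X ∧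
    ∀ l, X l * J β * (X l).transpose = μ • B}

/-! ## Proofs -/

theorem exp_eq {n : ℕ} {N : Matrix (Fin n) (Fin n) ℂ} (hN : N ^ n = 0) (v : ℂ) :
    IsNilpotent.exp (v • N) = Y119.HY.E N v := by
  have h1 : (v • N) ^ n = 0 := by rw [smul_pow, hN, smul_zero]
  rw [IsNilpotent.exp_eq_sum h1]
  unfold Y119.HY.E
  refine Finset.sum_congr rfl fun i _ => ?_
  rw [smul_pow]
  ext a b
  simp only [Matrix.smul_apply, smul_eq_mul, Rat.smul_def, Rat.cast_inv, Rat.cast_natCast]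
  ring

/-- the period matrix as a function of `log z` -/
theorem per_gen {n : ℕ} {N : Matrix (Fin n) (Fin n) ℤ} (hN : (N.map (Int.castRingHom ℂ)) ^ n = 0)
    (Z : Matrix (Fin n) (Fin n) ℚ⟦X⟧) (Ω : Matrix (Fin n) (Fin n) ℂ) {x : ℝ} (hx : x ≠ 0) :
    periods Ω N Z x = T44.GB.Pu Ω (N.map (Int.castRingHom ℂ)) (fun i j => Z i j) (Complex.log (1 / (x : ℂ))) := by
  unfold periods T44.GB.Pu
  rw [exp_eq hN, T44.GB.exp_log_inv hx]
  have h1 := T44.GB.Zc_real (fun i j => Z i j) x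
  rw [Complex.ofReal_div, Complex.ofReal_one] at h1
  rw [h1]
  rfl

theorem per_eq {n : ℕ} {N : Matrix (Fin n) (Fin n) ℤ} (hN : (N.map (Int.castRingHom ℂ)) ^ n = 0)
    (Z : Matrix (Fin n) (Fin n) ℚ⟦X⟧) (Ω : Matrix (Fin n) (Fin n) ℂ) {x : ℝ} (hx : 0 < x) :
    periods Ω N Z x = T44.GL.PL Ω (N.map (Int.castRingHom ℂ)) (fun i j => Z i j) x := by
  rw [per_gen hN Z Ω hx.ne', ← T44.GB.Pu_pos hx]
  congr 1
  obtain ⟨θ, h1, h2, -⟩ := T44.GB.log_inv_real hx.ne'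
  rw [h1, h2 hx, abs_of_pos hx]
  push_cast
  ring

theorem per_neg {n : ℕ} {N : Matrix (Fin n) (Fin n) ℤ} (hN : (N.map (Int.castRingHom ℂ)) ^ n = 0)
    {Z Z' : Matrix (Fin n) (Fin n) ℚ⟦X⟧} (h : ∀ i j m, coeff m (Z' i j) = (-1) ^ m * coeff m (Z i j))
    (Ω : Matrix (Fin n) (Fin n) ℂ) {x : ℝ} (hx : x < 0) :
    periods Ω N Z x = T44.GL.PL (Ω * Y119.HY.E (N.map (Int.castRingHom ℂ)) (((Real.pi : ℝ) : ℂ) * Complex.I))
      (N.map (Int.castRingHom ℂ)) (fun i j => Z' i j) (-x) := by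
  rw [per_gen hN Z Ω hx.ne, ← T44.GB.Pu_neg hN (Z := fun i j => Z i j) h (by linarith)]
  congr 1
  obtain ⟨θ, h1, -, h2⟩ := T44.GB.log_inv_real hx.ne
  rw [h1, h2 hx, abs_of_neg hx]

/-- the conclusion for the matrices `P_l` -/
def FullG {n r k : ℕ} (D s : ℕ) (C₀ : Matrix (Fin r) (Fin r) ℂ) (P : Fin k → Matrix (Fin n) (Fin n) ℂ)
    (BM : Matrix (Fin n) (Fin n) ℂ → Prop) : Prop :=
  (∀ l, IsUnit (P l)) ∧
  ∀ B : Matrix (Fin n) (Fin n) ℂ, Classical s B → BM B →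
  ∀ K : Subfield ℂ, FiniteDimensional ℚ K → Module.finrank ℚ K ≤ D →
  ∀ T : Set (Matrix (Fin r ⊕ (Fin n × Fin k)) (Fin r ⊕ (Fin n × Fin k)) ℂ), IsSubtorsor K T →
  total C₀ P ∈ T →
  (∀ (Q : Fin k → Matrix (Fin n) (Fin n) ℂ) (μ : Fin k → ℂ) (x : Matrix (Fin r) (Fin r) ℂ)
      (X Y : Fin k → Matrix (Fin n) (Fin n) ℂ), (∀ l, μ l ≠ 0) → (∀ l, X l * Q l * (X l).transpose = μ l • B) →
      (∀ l, Y l * Q l * (Y l).transpose = μ l • B) → (∀ l, Symplectic B ∨ (X l).det = (Y l).det) →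
      total x X ∈ T → total x Y ∈ T) ∧
  (0 < r → C₀ = twoPiI • 1 → ∀ (Q : Fin k → Matrix (Fin n) (Fin n) ℂ) (w d : Fin k → ℤ) (δ : Fin k → ℂ),
      T ⊆ torsorOf r B Q w d δ → T = torsorOf r B Q w d δ)

/-- positive fibres -/
theorem coreP {n : ℕ} {T : Polynomial ℤ} {A : Fin n → Fin n → Polynomial ℤ} {N : Matrix (Fin n) (Fin n) ℤ}
    {Z W : Matrix (Fin n) (Fin n) ℚ⟦X⟧} (hdat : T44.GL.DatL T A N Z W) :
    ∃ x₁ G : ℕ, 1 ≤ x₁ ∧ ∀ x₀ : ℕ, x₁ ≤ x₀ → ∀ (s r : ℕ) (C₀ : Matrix (Fin r) (Fin r) ℂ) (Ω : Matrix (Fin n) (Fin n) ℂ),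
      IsUnit C₀ → IsUnit Ω →
      FewPeriods s C₀ Ω N → ∀ k D : ℕ, ∃ (c : ℝ) (N₀ : ℕ), 0 < c ∧ ∀ M : ℕ, N₀ ≤ M →
        ∀ t : Fin k → ℚ, (∀ l, ((t l).den : ℝ) ≤ (M : ℝ) ^ c) → (∀ l, (M : ℝ) ≤ t l ∧ (t l : ℝ) ≤ M + (M : ℝ) ^ c) →
          (∀ i j, i ≠ j → (G : ℚ) ≤ |t i - t j|) →
          FullG D (s + extra N) C₀ (fun l => T44.GL.PL Ω (N.map (Int.castRingHom ℂ)) (fun i j => Z i j) (t l))
            fun B => ∀ g : Matrix (Fin n) (Fin n) ℂ, g.det = 1 → g * B * g.transpose = B →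
              T44.GL.GalL Ω (N.map (Int.castRingHom ℂ)) (fun i j => Z i j) x₀ g := by
  have hN : N ^ n = 0 := hdat.nil
  set Nc : Matrix (Fin n) (Fin n) ℂ := N.map (Int.castRingHom ℂ) with hNc
  have hNn : Nc ^ n = 0 := by
    have h1 := map_pow (RingHom.mapMatrix (Int.castRingHom ℂ)) N n
    rw [hN, map_zero] at h1
    exact h1.symm
  have hexp : ∀ v : ℂ, IsNilpotent.exp (v • Nc) = Y119.HY.E Nc v := exp_eq hNn
  have had : T44.GL.ad N = extra N := by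
    unfold T44.GL.ad extra
    split_ifs <;> rfl
  obtain ⟨x₁, R, hx₁, hmain₀⟩ := T44.GA.mainA Pool.Agent.H82.GF.main Pool.Agent.H45.GF.main hdat
  refine ⟨x₁, R, hx₁, ?_⟩
  rintro x₀ hx₀ s r C₀ _ hC₀ ⟨u, rfl⟩ ⟨θ, lam, v, hlam, hC₀a, hΩa⟩ k D
  have hmain := hmain₀ x₀ hx₀
  set Ω : Matrix (Fin n) (Fin n) ℂ := (u : Matrix (Fin n) (Fin n) ℂ) with hΩdef
  have hC₀d : IsUnit C₀.det := (Matrix.isUnit_iff_isUnit_det _).1 hC₀
  have hΩd : IsUnit Ω.det := (Matrix.isUnit_iff_isUnit_det _).1 u.isUnit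
  have hEu : ∀ v : ℂ, IsUnit (Y119.HY.E Nc v).det := fun v =>
    Matrix.isUnit_det_of_right_inverse (Y119.HY.E_mul_neg hNn v)
  rw [hexp] at hΩa
  have hΩ1 : IsUnit (Ω * Y119.HY.E Nc v).det := by
    rw [Matrix.det_mul]
    exact hΩd.mul (hEu v)
  obtain ⟨C, hC⟩ := T44.GL.exists_spaceL Pool.Agent.H33GF.GROW.main (inv_ne_zero hlam)
    (fun i j => T44.GF.alg_inv hlam hC₀a hC₀d i j) (fun i j => T44.GF.alg_inv hlam hΩa hΩ1 i j) N
  rw [had] at hC
  obtain ⟨E, hE⟩ := hmain k D r (s + extra N) C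
  obtain ⟨c, N₀, hc, hw⟩ := Y124.TD.window (2 * E) R
  refine ⟨c / (k + 1), max N₀ 1, by positivity, fun M hM' x hden hxw' hsep => ?_⟩
  have hM : N₀ ≤ M := (le_max_left _ _).trans hM'
  have hM1 : (1 : ℝ) ≤ M := by exact_mod_cast (le_max_right N₀ 1).trans hM'
  have hcc : c / (k + 1) ≤ c := div_le_self hc.le (by
    have : (0 : ℝ) ≤ k := by positivity
    linarith)
  have hxw : ∀ l, (M : ℝ) ≤ x l ∧ (x l : ℝ) ≤ M + (M : ℝ) ^ c := fun l => ⟨(hxw' l).1, (hxw' l).2.trans (by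
    have := Real.rpow_le_rpow_of_exponent_le hM1 hcc
    linarith)⟩
  obtain ⟨a, ha0, haM, hax⟩ : ∃ a : ℕ, 0 < a ∧ (a : ℝ) ≤ (M : ℝ) ^ c ∧ ∀ l, ∃ m : ℤ, x l = m / a := by
    refine ⟨∏ l, (x l).den, Finset.prod_pos fun l _ => (x l).pos, ?_, fun l => ?_⟩
    · push_cast
      calc ∏ l, ((x l).den : ℝ) ≤ ∏ _l : Fin k, (M : ℝ) ^ (c / (k + 1)) :=
            Finset.prod_le_prod (fun l _ => by positivity) fun l _ => hden l
        _ = (M : ℝ) ^ (c / (k + 1) * k) := by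
            rw [Finset.prod_const, Finset.card_univ, Fintype.card_fin, ← Real.rpow_natCast, ← Real.rpow_mul (by linarith)]
        _ ≤ _ := by
            refine Real.rpow_le_rpow_of_exponent_le hM1 ?_
            rw [div_mul_eq_mul_div, div_le_iff₀ (by positivity)]
            nlinarith
    · obtain ⟨e, he⟩ := Finset.dvd_prod_of_mem (fun l => (x l).den) (Finset.mem_univ l)
      have he0 : (e : ℚ) ≠ 0 := by
        rintro h0
        have h1 : e = 0 := by exact_mod_cast h0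
        rw [h1, mul_zero] at he
        exact (Finset.prod_pos (s := Finset.univ) fun l _ => (x l).pos).ne' he
      refine ⟨(x l).num * e, ?_⟩
      rw [he]
      push_cast
      rw [mul_div_mul_right _ _ he0, Rat.num_div_den]
  set F := ⌊(M : ℝ) ^ c⌋₊ with hF
  choose m hm using hax
  have haR : (0 : ℝ) < a := by exact_mod_cast ha0
  have haF : a ≤ F := Nat.le_floor haM
  have hmR : ∀ l, (m l : ℝ) = a * (x l : ℝ) := by
    intro l
    have h1 : ((x l : ℚ) : ℝ) = (m l : ℝ) / a := by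
      rw [hm l]
      push_cast
      rfl
    rw [h1]
    field_simp
  have hlow : ∀ l, ((a * M : ℕ) : ℤ) ≤ m l := by
    intro l
    have h1 : ((a * M : ℕ) : ℝ) ≤ (m l : ℝ) := by
      rw [hmR]
      push_cast
      exact mul_le_mul_of_nonneg_left (hxw l).1 haR.le
    exact_mod_cast h1
  have hupp : ∀ l, m l ≤ ((a * (M + F + 1) : ℕ) : ℤ) := by
    intro l
    have h1 : (m l : ℝ) ≤ ((a * (M + F + 1) : ℕ) : ℝ) := by
      rw [hmR]
      push_cast
      refine mul_le_mul_of_nonneg_left ?_ haR.le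
      have h2 := (hxw l).2
      have h3 := Nat.lt_floor_add_one ((M : ℝ) ^ c)
      rw [← hF] at h3
      linarith
    exact_mod_cast h1
  obtain ⟨mm, hmm⟩ : ∃ mm : Fin k → ℕ, ∀ l, (mm l : ℤ) = m l :=
    ⟨fun l => (m l).toNat, fun l => Int.toNat_of_nonneg (le_trans (Int.natCast_nonneg _) (hlow l))⟩
  have hlow' : ∀ l, a * M ≤ mm l := fun l => by
    have := hlow l
    rw [← hmm l] at this
    exact_mod_cast this
  have hupp' : ∀ l, mm l ≤ a * (M + F + 1) := fun l => by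
    have := hupp l
    rw [← hmm l] at this
    exact_mod_cast this
  have hval : ∀ l, ((mm l : ℕ) : ℝ) / a = (x l : ℝ) := by
    intro l
    have h1 : ((mm l : ℕ) : ℝ) = (m l : ℝ) := by exact_mod_cast hmm l
    rw [h1, hmR]
    field_simp
  set t : ℕ := a * (M + F + 1 + R) with htdef
  have ht1 : t = a * (M + F + 1) + a * R := by rw [htdef]; ring
  have ht2 : t = a * M + a * (F + 1 + R) := by rw [htdef]; ring
  have hmg : ∀ l, t - (t - mm l) = mm l := fun l => by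
    have := hupp' l
    omega
  have hEt : (a * (F + 1 + R) + a + 2) ^ E ≤ t := by
    have h1 : a * (F + 1 + R) + a + 2 ≤ (F + R + 2) ^ 2 := by
      have h2 : a * (F + 1 + R) ≤ F * (F + 1 + R) := Nat.mul_le_mul_right _ haF
      nlinarith
    have h2 : (F + R + 2) ^ (2 * E) ≤ M := hw M hM
    have h3 : M ≤ a * M := Nat.le_mul_of_pos_left _ ha0
    have h4 : (a * (F + 1 + R) + a + 2) ^ E ≤ (F + R + 2) ^ (2 * E) := by
      rw [pow_mul]
      exact Nat.pow_le_pow_left h1 _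
    omega
  obtain ⟨-, h1⟩ := hE (a * (F + 1 + R)) t a ha0 hEt
  obtain ⟨-, h3, h4⟩ := h1 (fun l => t - mm l) ⟨fun l => by
      have := hupp' l
      show a * R ≤ t - mm l
      omega, fun i j hij => by
      show t - mm i + a * R ≤ t - mm j ∨ t - mm j + a * R ≤ t - mm i
      have h5 := hupp' i
      have h6 := hupp' j
      have h7 : ((a * R : ℕ) : ℤ) ≤ |(mm i : ℤ) - mm j| := by
        have h8 : ((R : ℚ) : ℝ) ≤ ((|x i - x j| : ℚ) : ℝ) := by exact_mod_cast hsep i j hij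
        have h9 : ((a * R : ℕ) : ℝ) ≤ |((mm i : ℕ) : ℝ) - ((mm j : ℕ) : ℝ)| := by
          have e1 : ((mm i : ℕ) : ℝ) - ((mm j : ℕ) : ℝ) = a * ((x i : ℝ) - x j) := by
            rw [← hval i, ← hval j]
            field_simp
          rw [e1, abs_mul, abs_of_pos haR]
          push_cast at h8 ⊢
          exact mul_le_mul_of_nonneg_left h8 haR.le
        exact_mod_cast h9
      rcases le_total (mm i) (mm j) with h8 | h8
      · right
        have h9 : |(mm i : ℤ) - mm j| = (mm j : ℤ) - mm i := by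
          rw [abs_sub_comm]
          exact abs_of_nonneg (by omega)
        rw [h9] at h7
        omega
      · left
        have h9 : |(mm i : ℤ) - mm j| = (mm i : ℤ) - mm j := abs_of_nonneg (by omega)
        rw [h9] at h7
        omega⟩ (fun l => by
      have := hlow' l
      omega)
  simp only [hmg, hval] at h3 h4
  refine ⟨fun l => ?_, ?_⟩
  · rw [Matrix.isUnit_iff_isUnit_det]
    unfold T44.GL.PL
    rw [Matrix.det_mul, Matrix.det_mul]
    exact (hΩd.mul (hEu _)).mul (h3 l)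
  intro B hB hBG K hK hKD T hT hcT
  have hT' : TH127.PT.IsSubtorsor K T := Y123.ST.subT_iff.1 hT
  have hKalg : ∀ x ∈ K, IsAlgebraic ℚ x := by
    intro x hx
    have : NumberField K := { to_charZero := inferInstance, to_finiteDimensional := hK }
    have h6 : IsAlgebraic ℚ (⟨x, hx⟩ : K) := Algebra.IsAlgebraic.isAlgebraic _
    exact h6.algebraMap (A := ℂ)
  obtain ⟨𝒱, h𝒱, hgr, hmem1, hmem2⟩ := hC (((Real.log ((t : ℝ) / a) : ℝ) : ℂ) + v)
  have hΘeq : Y119.HY.E Nc (((Real.log ((t : ℝ) / a) : ℝ) : ℂ) + v) * (Ω * Y119.HY.E Nc v)⁻¹ =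
      Y119.HY.E Nc ((Real.log ((t : ℝ) / a) : ℝ) : ℂ) * Ω⁻¹ := by
    rw [Y119.HY.E_add hNn, Matrix.mul_inv_rev, Matrix.mul_assoc, ← Matrix.mul_assoc (Y119.HY.E Nc v),
      Matrix.mul_nonsing_inv _ (hEu v), Matrix.one_mul]
  rw [hΘeq] at hmem2
  have hcT' : Y123.SR.E2 C₀ (fun l => T44.GL.PL Ω Nc (fun i j => Z i j) (x l)) ∈ T := hcT
  have hst := fun 𝒩 h1 h2 h3 h5 => h4 (Fin r) (Fintype.card_fin r) C₀ hC₀d Ω Ω⁻¹ (Matrix.mul_nonsing_inv _ hΩd)
    (Matrix.nonsing_inv_mul _ hΩd) 𝒱 h𝒱 hgr hmem1 hmem2 K hK hKD 𝒩 h1 h2 h3 h5 T hT' hcT'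
  have hcl : ∀ B : Matrix (Fin n) (Fin n) ℂ, Classical (s + extra N) B →
      (∀ g : Matrix (Fin n) (Fin n) ℂ, g.det = 1 → g * B * g.transpose = B → T44.GL.GalL Ω Nc (fun i j => Z i j) x₀ g) →
      ∀ g : Fin k → (Matrix (Fin n) (Fin n) ℂ)ˣ, (∀ i, g i ∈ Y123.GN.GB B) →
      ∀ x ∈ T, Y123.SR.E2 1 (fun i => (g i : Matrix (Fin n) (Fin n) ℂ)) * x ∈ T := by
    intro B hB hBG g hg x hx
    have h5 : Y123.GN.Perf (Y123.GN.Nil (Y123.GN.GB B)) ∧ T44.GF.NoSub (s + extra N) (Y123.GN.Nil (Y123.GN.GB B)) := by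
      rcases hB with ⟨rfl, h6, h7⟩ | ⟨⟨h8, h9⟩, h6, h7⟩ | ⟨h8, h9, h6, h7, h10⟩
      · exact Pool.Agent.H82.GF.CLSL.main n _ h6 h7
      · exact Pool.Agent.H82.GF.CLSP.main Pool.Agent.H91GF.main n _ B h9 h8 h6 h7
      · exact Pool.Agent.H84GF.main n _ B h9 h8 h6 h7 h10
    refine hst (Y123.GN.Nil (Y123.GN.GB B)) (fun N hN => hN.1) (fun U hU t => ?_) h5.1 h5.2 _
      (fun l => T44.GF.mem_EG (T44.GF.cls_perf hB) (hg l)) x hx
    obtain ⟨v, hv, hv'⟩ := hU.2 t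
    rw [← hv']
    exact hBG _ hv.1 hv.2
  refine ⟨?_, ?_⟩
  · intro Q μ x X Y hμ hX hY hd hx
    exact T44.GF.fibre_full2 hT' (hcl B hB hBG) hμ hx hX hY hd
  · intro hr hC₀' Q w d δ hTF
    have hne : Nonempty (Fin r) := ⟨⟨0, hr⟩⟩
    rw [hC₀'] at hcT'
    exact T44.GF.absolute2 hKalg hT' hcT' (hcl B hB hBG) hTF

/-- all fibres -/
theorem core (n : ℕ) (T : Polynomial ℤ) (A : Matrix (Fin n) (Fin n) (Polynomial ℤ)) (N : Matrix (Fin n) (Fin n) ℤ)
    (Z W : Matrix (Fin n) (Fin n) ℚ⟦X⟧) (hT : T ≠ 0) (hN : N ^ n = 0)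
    (hode : ∀ i j, toQ T * (X * PowerSeries.derivative ℚ (Z i j) + ∑ k, C (N i k : ℚ) * Z k j) = ∑ k, Z i k * toQ (A k j))
    (hZ0 : ∀ i j, coeff 0 (Z i j) = if i = j then 1 else 0) (hW : W * Z = 1)
    (hsZ : ∀ i j, Y113.SDc (Z i j)) (hsW : ∀ i j, Y113.SDc (W i j)) :
    ∃ x₀ G : ℕ, 1 ≤ x₀ ∧ ∀ (s r : ℕ) (C₀ : Matrix (Fin r) (Fin r) ℂ) (Ω : Matrix (Fin n) (Fin n) ℂ), IsUnit C₀ → IsUnit Ω →
      FewPeriods s C₀ Ω N → ∀ k D : ℕ, ∃ (c : ℝ) (N₀ : ℕ), 0 < c ∧ ∀ M : ℕ, N₀ ≤ M →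
        ∀ t : Fin k → ℚ, InWindow G M c t → Full D (s + extra N) C₀ Ω N Z x₀ t := by
  have hdat : T44.GL.DatL T (fun i j => A i j) N Z W := ⟨hT, hN, hode, hZ0, hW, hsZ, hsW⟩
  set Nc : Matrix (Fin n) (Fin n) ℂ := N.map (Int.castRingHom ℂ) with hNc
  have hNn : Nc ^ n = 0 := by
    have h1 := map_pow (RingHom.mapMatrix (Int.castRingHom ℂ)) N n
    rw [hN, map_zero] at h1
    exact h1.symm
  obtain ⟨x₁, G₁, hx₁, h₁⟩ := coreP hdat
  obtain ⟨x₂, G₂, -, h₂⟩ := coreP (T44.GB.flip hdat)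
  obtain ⟨C, hC1, hC⟩ := T44.GB.growth hsZ
  set Z' : Matrix (Fin n) (Fin n) ℚ⟦X⟧ := Matrix.of fun i j => T44.GB.rn (Z i j) with hZ'
  have hneg : ∀ i j m, coeff m (Z' i j) = (-1) ^ m * coeff m (Z i j) := fun i j m => T44.GB.rn_coeff _ _
  set x₀ := max (max x₁ x₂) C with hx₀
  have hx₀1 : 1 ≤ x₀ := hx₁.trans ((le_max_left _ _).trans (le_max_left _ _))
  have hgal : ∀ (Ω g : Matrix (Fin n) (Fin n) ℂ), IsGalois Ω N Z x₀ g → T44.GL.GalL Ω Nc (fun i j => Z i j) x₀ g := by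
    intro Ω g hg F hF x hx
    have hpos : ∀ {y : ℝ}, (x₀ : ℝ) < y → 0 < y := fun {y} hy => lt_trans (by exact_mod_cast hx₀1) hy
    have h1 := hg F (fun x hx => by
      rw [per_eq hNn Z Ω (hpos hx)]
      exact hF x hx) x hx
    rw [per_eq hNn Z Ω (hpos hx)] at h1
    exact h1
  refine ⟨x₀, max G₁ G₂, hx₀1, fun s r C₀ Ω hC₀ hΩ hFP k D => ?_⟩
  have hEu : ∀ v : ℂ, IsUnit (Y119.HY.E Nc v) := fun v => (Matrix.isUnit_iff_isUnit_det _).2
    (Matrix.isUnit_det_of_right_inverse (Y119.HY.E_mul_neg hNn v))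
  obtain ⟨c₁, N₁, hc₁, hw₁⟩ := h₁ x₀ ((le_max_left _ _).trans (le_max_left _ _)) s r C₀ Ω hC₀ hΩ hFP k D
  obtain ⟨c₂, N₂, hc₂, hw₂⟩ := h₂ x₀ ((le_max_right _ _).trans (le_max_left _ _)) s r C₀
    (Ω * Y119.HY.E Nc (((Real.pi : ℝ) : ℂ) * Complex.I)) hC₀ (hΩ.mul (hEu _)) (by
      obtain ⟨θ, lam, v, hlam, h3, h4⟩ := hFP
      refine ⟨θ, lam, v - ((Real.pi : ℝ) : ℂ) * Complex.I, hlam, h3, fun i j => ?_⟩
      have h5 := h4 i j
      rw [exp_eq hNn] at h5 ⊢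
      rw [Matrix.mul_assoc, ← Y119.HY.E_add hNn, add_sub_cancel]
      exact h5) k D
  refine ⟨min c₁ c₂, max (max N₁ N₂) 1, lt_min hc₁ hc₂, fun M hM t ⟨hden, hwin, hsep⟩ => ?_⟩
  have hM1 : (1 : ℝ) ≤ M := by exact_mod_cast (le_max_right _ _).trans hM
  have hM2 : N₁ ≤ M := ((le_max_left _ _).trans (le_max_left _ _)).trans hM
  have hM3 : N₂ ≤ M := ((le_max_right _ _).trans (le_max_left _ _)).trans hM
  have hp1 : (M : ℝ) ^ min c₁ c₂ ≤ (M : ℝ) ^ c₁ := Real.rpow_le_rpow_of_exponent_le hM1 (min_le_left _ _)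
  have hp2 : (M : ℝ) ^ min c₁ c₂ ≤ (M : ℝ) ^ c₂ := Real.rpow_le_rpow_of_exponent_le hM1 (min_le_right _ _)
  have hG1 : (G₁ : ℚ) ≤ ((max G₁ G₂ : ℕ) : ℚ) := by exact_mod_cast le_max_left G₁ G₂
  have hG2 : (G₂ : ℚ) ≤ ((max G₁ G₂ : ℕ) : ℚ) := by exact_mod_cast le_max_right G₁ G₂
  rcases hwin with hwin | hwin
  · have h3 := hw₁ M hM2 t (fun l => (hden l).trans hp1) (fun l => ⟨(hwin l).1, (hwin l).2.trans (by linarith)⟩)
      fun i j hij => hG1.trans (hsep i j hij)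
    have ht0 : ∀ l, (0 : ℝ) < (t l : ℝ) := fun l => by linarith [(hwin l).1]
    have hper : (fun l => periods Ω N Z (t l)) = fun l => T44.GL.PL Ω Nc (fun i j => Z i j) (t l) :=
      funext fun l => per_eq hNn Z Ω (ht0 l)
    have h4 : FullG D (s + extra N) C₀ (fun l => periods Ω N Z (t l)) (BigMonodromy Ω N Z x₀) := by
      rw [hper]
      exact ⟨h3.1, fun B hB hBG => h3.2 B hB fun g hg1 hg2 => hgal _ _ (hBG g hg1 hg2)⟩
    exact h4
  · have h3 := hw₂ M hM3 (fun l => -t l) (fun l => by rw [Rat.neg_den]; exact (hden l).trans hp2) (fun l => by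
        push_cast
        exact ⟨(hwin l).1, (hwin l).2.trans (by linarith)⟩) fun i j hij => by
      have h5 := hG2.trans (hsep i j hij)
      rw [abs_sub_comm] at h5
      have h6 : -t i - -t j = t j - t i := by ring
      rw [h6]
      exact h5
    have ht0 : ∀ l, (t l : ℝ) < 0 := fun l => by linarith [(hwin l).1]
    have hper : (fun l => periods Ω N Z (t l)) = fun l => T44.GL.PL
        (Ω * Y119.HY.E Nc (((Real.pi : ℝ) : ℂ) * Complex.I)) Nc (fun i j => Z' i j) ((-t l : ℚ) : ℝ) := by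
      funext l
      rw [per_neg hNn hneg Ω (ht0 l)]
      push_cast
      rfl
    have h4 : FullG D (s + extra N) C₀ (fun l => periods Ω N Z (t l)) (BigMonodromy Ω N Z x₀) := by
      rw [hper]
      refine ⟨h3.1, fun B hB hBG => h3.2 B hB fun g hg1 hg2 => ?_⟩
      exact T44.GB.gal_neg hNn (Z := fun i j => Z i j) hneg (C := C) (by exact_mod_cast hC1) hC
        (by exact_mod_cast le_max_right _ _) (hgal _ _ (hBG g hg1 hg2))
    exact h4

theorem shift_eq (k : ℕ) : shift k = Pool.Agent.Y119.HY.kx k := rfl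

theorem frob_eq {m : ℕ} (β : Fin m → ℚ) (k : ℕ) : frob β k = Pool.Agent.Y119.HY.aq (2 * m) (Pool.Agent.Y119.HY.QB β) k := by
  unfold frob Pool.Agent.Y119.HY.aq
  refine Finset.prod_congr rfl fun l _ => ?_
  congr 1
  unfold Pool.Agent.Y119.HY.QB
  rw [map_prod]
  refine Finset.prod_congr rfl fun j _ => ?_
  simp only [map_sub, map_pow, Polynomial.aeval_X, Polynomial.aeval_C]
  rfl

theorem J_eq {m : ℕ} (β : Fin m → ℚ) :
    J β = Pool.Agent.Y119.HY.cm (Pool.Agent.Y119.HY.Jm (2 * m) (Pool.Agent.Y119.HY.QB β)) := by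
  ext i j
  rw [Pool.Agent.Y119.HY.cm_apply]
  unfold J Pool.Agent.Y119.HY.Jm
  rw [Matrix.of_apply, Matrix.of_apply]
  split_ifs
  · rfl
  · simp

theorem Y_eq {m : ℕ} (β : Fin m → ℚ) {t : ℚ} (ht : (t : ℝ) ≠ 0) :
    Y β t = T44.GB.Yv (2 * m) (Pool.Agent.Y119.HY.QB β) (Complex.log (1 / ((t : ℝ) : ℂ))) := by
  ext i j
  unfold Y T44.GB.Yv
  rw [T44.GB.exp_log_inv ht, Complex.ofReal_ratCast]
  rw [Matrix.of_apply, Matrix.mul_apply]
  have hE : ∀ c : Fin (2 * m), Pool.Agent.Y119.HY.E (Pool.Agent.Y119.HY.cm (Pool.Agent.Y119.HY.Am (2 * m)))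
      (Complex.log (1 / (t : ℂ))) c j = ∑ l ∈ Finset.range (2 * m),
        if (j : ℕ) = c + l then (Complex.log (1 / (t : ℂ)) ^ l / l.factorial) else 0 := by
    intro c
    unfold Pool.Agent.Y119.HY.E
    rw [Matrix.sum_apply]
    refine Finset.sum_congr rfl fun l _ => ?_
    rw [Matrix.smul_apply, ← Pool.Agent.Y119.HY.cm_pow, Pool.Agent.Y119.HY.cm_apply, Pool.Agent.Y119.HY.Am_pow, smul_eq_mul]
    split_ifs
    · push_cast
      ring
    · simp
  simp only [hE, Finset.mul_sum]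
  rw [Finset.sum_comm]
  have hsub : Finset.range ((j : ℕ) + 1) ⊆ Finset.range (2 * m) := by
    intro l hl
    rw [Finset.mem_range] at hl ⊢
    have := j.2
    omega
  refine Finset.sum_subset_zero_on_sdiff hsub (fun l hl => ?_) fun l hl => ?_
  · rw [Finset.mem_sdiff, Finset.mem_range, Finset.mem_range] at hl
    refine Finset.sum_eq_zero fun c _ => ?_
    rw [if_neg (by omega), mul_zero]
  · rw [Finset.mem_range] at hl
    have hj := j.2
    rw [Finset.sum_eq_single (⟨(j : ℕ) - l, by omega⟩ : Fin (2 * m))]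
    · rw [if_pos (by simp only; omega), mul_comm]
      congr 1
      unfold Pool.Agent.Y119.HY.Hf Pool.Agent.Y119.HY.ps
      rw [Matrix.of_apply]
      refine tsum_congr fun k => ?_
      show _ = ((Pool.Agent.Y119.HY.hq (2 * m) (Pool.Agent.Y119.HY.QB β) k i ((j : ℕ) - l) : ℚ) : ℂ) *
        (1 / (t : ℂ)) ^ k
      rw [frob_eq, shift_eq]
      unfold Pool.Agent.Y119.HY.hq
      rfl
    · intro c _ hc
      rw [if_neg, mul_zero]
      intro h
      apply hc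
      apply Fin.ext
      simp only
      omega
    · intro h
      exact absurd (Finset.mem_univ _) h

/-- the fibres of a window are large -/
theorem win_abs {k G M : ℕ} {c : ℝ} {t : Fin k → ℚ} (h : InWindow G M c t) (l : Fin k) : (M : ℝ) ≤ |(t l : ℝ)| := by
  rcases h.2.1 with h1 | h1
  · exact (h1 l).1.trans (le_abs_self _)
  · exact (h1 l).1.trans (neg_le_abs _)

theorem pairing_skew {m : ℕ} (hm : 1 ≤ m) {β : Fin m → ℚ} (hβ : ∀ j, ∀ l : ℕ, (l : ℚ) + β j ≠ 0 ∧ (l : ℚ) + -β j ≠ 0)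
    (Ω : Matrix (Fin (2 * m)) (Fin (2 * m)) ℂ) (hΩ : IsUnit Ω) : Symplectic (Ω.transpose * J β * Ω) := by
  have hQ := Y119.HZ.QD_QB hm hβ
  have h1 := Y119.HY.Jc_skew hQ
  have h2 := Y119.HY.Jc_det hQ
  rw [J_eq]
  have hΩd : IsUnit Ω.det := (Matrix.isUnit_iff_isUnit_det _).1 hΩ
  refine ⟨?_, ?_⟩
  · rw [Matrix.isUnit_iff_isUnit_det, Matrix.det_mul, Matrix.det_mul, Matrix.det_transpose]
    exact (hΩd.mul (isUnit_iff_ne_zero.2 h2)).mul hΩd
  · rw [Matrix.transpose_mul, Matrix.transpose_mul, Matrix.transpose_transpose, h1]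
    simp only [Matrix.mul_neg, Matrix.neg_mul, Matrix.mul_assoc]

/-- the hypergeometric families -/
theorem hyper (m : ℕ) (β : Fin m → ℚ) (hβ : ∀ j, ∀ a : ℤ, β j ≠ a) :
    ∃ G : ℕ, ∀ (s w : ℕ) (Ω B : Matrix (Fin (2 * m)) (Fin (2 * m)) ℂ), s + 3 ≤ 2 * m → IsUnit Ω →
      FewPeriods s (twoPiI • (1 : Matrix (Fin 1) (Fin 1) ℂ)) Ω.transpose (lower (2 * m)) →
      Ω.transpose * J β * Ω = twoPiI ^ w • B →
      ∀ k D : ℕ, ∃ (c : ℝ) (N₀ : ℕ), 0 < c ∧ ∀ M : ℕ, N₀ ≤ M → ∀ t : Fin k → ℚ, InWindow G M c t →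
        ∀ K : Subfield ℂ, FiniteDimensional ℚ K → Module.finrank ℚ K ≤ D → (∀ i j, B i j ∈ K) →
          Symplectic B ∧ IsOmega K (total (twoPiI • (1 : Matrix (Fin 1) (Fin 1) ℂ)) fun l => (Y β (t l) * Ω).transpose)
            (respecting k β w B) := by
  by_cases hm : m = 0
  · refine ⟨0, fun s w Ω B hs => ?_⟩
    omega
  have hm1 : 1 ≤ m := by omega
  have hβ' : ∀ j, ∀ l : ℕ, (l : ℚ) + β j ≠ 0 ∧ (l : ℚ) + -β j ≠ 0 := by
    intro j l
    constructor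
    · intro h
      apply hβ j (-(l : ℤ))
      push_cast
      linear_combination h
    · intro h
      apply hβ j (l : ℤ)
      push_cast
      linear_combination -h
  have hQ := Y119.HZ.QD_QB hm1 hβ'
  have hH : ∀ a b, Y113.SDc (Y119.HZ.Hp (2 * m) (Y119.HY.QB β) a b) := fun a b => Y119.HY.sdc_hps hβ' hQ a b
  set Q := Y119.HY.QB β with hQd
  set n := 2 * m with hn
  obtain ⟨D₀, b, hD₀, hb⟩ := Y119.HZ.exists_b n Q
  have hlow : lower n = T44.GL.NZ n := rfl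
  have hT0 : Y119.HZ.T1 D₀ ≠ 0 := by
    unfold Y119.HZ.T1
    refine mul_ne_zero ?_ ?_
    · exact Polynomial.C_ne_zero.2 (by exact_mod_cast hD₀)
    · intro h
      have h1 := congrArg (Polynomial.eval 0) h
      simp at h1
  obtain ⟨x₀, G, hx₀, hmain⟩ := core n (Y119.HZ.T1 D₀) (Matrix.of fun i j => Y119.HZ.A1 n D₀ b j i) (lower n)
    (Matrix.of fun i j => Y119.HZ.Hp n Q j i) (Matrix.of fun i j => Y119.HZ.Wp n Q j i) hT0 T44.GL.NZ_pow (by
      intro i j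
      have h1 := Y119.HZ.ode_int hQ hb j i
      have h2 : ∑ k, Y119.HZ.Hp n Q j k * C (Y119.HY.Am n k i) = ∑ k, C ((lower n i k : ℤ) : ℚ) * Y119.HZ.Hp n Q j k := by
        refine Finset.sum_congr rfl fun k _ => ?_
        rw [mul_comm]
        congr 2
        unfold Y119.HY.Am lower
        rw [Matrix.of_apply, Matrix.of_apply]
        split_ifs <;> simp
      rw [h2] at h1
      have h3 : ∑ k, Y113.ps (Y119.HZ.A1 n D₀ b j k) * Y119.HZ.Hp n Q k i =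
          ∑ k, Y119.HZ.Hp n Q k i * Y113.ps (Y119.HZ.A1 n D₀ b j k) := Finset.sum_congr rfl fun k _ => mul_comm _ _
      rw [h3] at h1
      exact h1) (by
      intro i j
      have h1 : coeff 0 (Y119.HZ.Hp n Q j i) = Y119.HY.Hq n Q 0 j i :=
        congrFun (congrFun (Y119.HZ.cf_Hp (Q := Q) 0) j) i
      rw [Matrix.of_apply, h1, Y119.HY.Hq_zero, Matrix.one_apply]
      simp only [eq_comm]) (by
      have h1 := Y119.HZ.mul_Wp hQ
      funext i j
      have h2 := congrFun (congrFun h1 j) i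
      rw [Matrix.mul_apply] at h2 ⊢
      rw [Matrix.one_apply] at h2 ⊢
      have h3 : (if i = j then (1 : ℚ⟦X⟧) else 0) = if j = i then 1 else 0 := by
        simp only [eq_comm]
      rw [h3, ← h2]
      exact Finset.sum_congr rfl fun k _ => mul_comm _ _) (fun i j => hH j i)
    (fun i j => Y119.HZ.SDc_Wp hH j i)
  refine ⟨G, fun s w Ω B hs hΩ hFP hB k D => ?_⟩
  obtain ⟨c, N₀, hc, hw⟩ := hmain s 1 (twoPiI • 1) Ω.transpose (T44.GL.unit_smul_one Complex.two_pi_I_ne_zero)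
    (by rw [Matrix.isUnit_iff_isUnit_det, Matrix.det_transpose]; exact (Matrix.isUnit_iff_isUnit_det _).1 hΩ) hFP k D
  refine ⟨c, max N₀ 2, hc, fun M hM t ht K hKf hKD hBK => ?_⟩
  have ht2 : ∀ l, (2 : ℝ) ≤ |(t l : ℝ)| := fun l => by
    have h1 : (2 : ℝ) ≤ (M : ℝ) := by exact_mod_cast (le_max_right N₀ 2).trans hM
    exact h1.trans (win_abs ht l)
  have ht0 : ∀ l, (t l : ℝ) ≠ 0 := fun l h0 => by
    have := ht2 l
    rw [h0, abs_zero] at this
    linarith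
  obtain ⟨-, h1⟩ := hw M ((le_max_left _ _).trans hM) t ht
  have hsy : Symplectic (twoPiI ^ w • B) := by
    rw [← hB]
    exact pairing_skew hm1 hβ' Ω hΩ
  have h2pi : (twoPiI : ℂ) ≠ 0 := Complex.two_pi_I_ne_zero
  have hBs : Symplectic B := by
    have h2 : B = (twoPiI ^ w)⁻¹ • (twoPiI ^ w • B) := by
      rw [smul_smul, inv_mul_cancel₀ (pow_ne_zero _ h2pi), one_smul]
    have h3 : B.transpose = -B := by
      have h4 := hsy.2
      rw [Matrix.transpose_smul, ← smul_neg] at h4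
      have h5 := congrArg (fun X => (twoPiI ^ w)⁻¹ • X) h4
      simp only [smul_smul] at h5
      rwa [inv_mul_cancel₀ (pow_ne_zero _ h2pi), one_smul, one_smul] at h5
    refine ⟨?_, h3⟩
    have h4 := hsy.1
    rw [Matrix.isUnit_iff_isUnit_det, Matrix.det_smul] at h4
    rw [Matrix.isUnit_iff_isUnit_det]
    exact isUnit_of_mul_isUnit_right h4
  have hBd : B.det ≠ 0 := ((Matrix.isUnit_iff_isUnit_det _).1 hBs.1).ne_zero
  have hJK : ∀ i j, J β i j ∈ K := by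
    intro i j
    rw [J_eq, Y119.HY.cm_apply]
    exact SubfieldClass.ratCast_mem K _
  have hper : ∀ l, (Y β (t l) * Ω).transpose = periods Ω.transpose (lower n)
      (Matrix.of fun i j => Y119.HZ.Hp n Q j i) (t l) := by
    intro l
    have h2 : (lower n).map (Int.castRingHom ℂ) ^ n = 0 := by
      have h3 := map_pow (RingHom.mapMatrix (Int.castRingHom ℂ)) (lower n) n
      rw [show lower n ^ n = 0 from T44.GL.NZ_pow, map_zero] at h3
      exact h3.symm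
    rw [per_gen h2 _ _ (ht0 l), Y_eq β (ht0 l)]
    exact T44.GB.Yv_per (Q := Q) Ω _
  have hrt : respecting k β w B = T44.GL.RT (Fin 1) k (J β) B w := rfl
  have hsub : IsSubtorsor K (respecting k β w B) := Y123.ST.subT_iff.2 (T44.GL.rt_sub hBd hJK hBK)
  have hform : ∀ l, (Y β (t l) * Ω).transpose * J β * ((Y β (t l) * Ω).transpose).transpose = twoPiI ^ w • B := by
    intro l
    have h2 := T44.GB.Yv_form hQ (T44.GB.log_mem (t := (t l : ℝ)) one_pos (by linarith [ht2 l]))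
    rw [← hB, Matrix.transpose_transpose, Matrix.transpose_mul, Y_eq β (ht0 l), J_eq]
    calc Ω.transpose * (T44.GB.Yv (2 * m) (Y119.HY.QB β) (Complex.log (1 / ((t l : ℝ) : ℂ)))).transpose *
          Y119.HY.cm (Y119.HY.Jm (2 * m) (Y119.HY.QB β)) *
          (T44.GB.Yv (2 * m) (Y119.HY.QB β) (Complex.log (1 / ((t l : ℝ) : ℂ))) * Ω) =
        Ω.transpose * ((T44.GB.Yv (2 * m) (Y119.HY.QB β) (Complex.log (1 / ((t l : ℝ) : ℂ)))).transpose *
          Y119.HY.cm (Y119.HY.Jm (2 * m) (Y119.HY.QB β)) *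
          T44.GB.Yv (2 * m) (Y119.HY.QB β) (Complex.log (1 / ((t l : ℝ) : ℂ)))) * Ω := by
          simp only [Matrix.mul_assoc]
      _ = _ := by
        rw [h2]
  have hmem : total (twoPiI • (1 : Matrix (Fin 1) (Fin 1) ℂ)) (fun l => (Y β (t l) * Ω).transpose) ∈
      respecting k β w B := ⟨twoPiI, h2pi, _, rfl, hform⟩
  refine ⟨hBs, hsub, hmem, fun T hT hcT => ?_⟩
  set S := T ∩ respecting k β w B with hS
  have hSs : IsSubtorsor K S := Y123.ST.subT_iff.2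
    (Y123.GN.inter_sub (Y123.ST.subT_iff.1 hT) (Y123.ST.subT_iff.1 hsub))
  have hcS : total (twoPiI • (1 : Matrix (Fin 1) (Fin 1) ℂ)) (fun l => periods Ω.transpose (lower n)
      (Matrix.of fun i j => Y119.HZ.Hp n Q j i) (t l)) ∈ S := by
    have h2 : (fun l => periods Ω.transpose (lower n) (Matrix.of fun i j => Y119.HZ.Hp n Q j i) (t l)) =
        fun l => (Y β (t l) * Ω).transpose := by
      funext l
      exact (hper l).symm
    rw [h2]
    exact ⟨hcT, hmem⟩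
  have hbig : BigMonodromy Ω.transpose (lower n) (Matrix.of fun i j => Y119.HZ.Hp n Q j i) x₀ B := by
    intro g _ hg F hF x hx
    have hΩd : IsUnit Ω.det := (Matrix.isUnit_iff_isUnit_det _).1 hΩ
    have h2 : (lower n).map (Int.castRingHom ℂ) ^ n = 0 := by
      have h3 := map_pow (RingHom.mapMatrix (Int.castRingHom ℂ)) (lower n) n
      rw [show lower n ^ n = 0 from T44.GL.NZ_pow, map_zero] at h3
      exact h3.symm
    have hgP : g * (Ω.transpose * J β * Ω) * g.transpose = Ω.transpose * J β * Ω := by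
      rw [hB, Matrix.mul_smul, Matrix.smul_mul, hg]
    set κ := Ω * g.transpose * Ω⁻¹ with hκd
    have hκ : κ.transpose * Y119.HY.cm (Y119.HY.Jm n Q) * κ = Y119.HY.cm (Y119.HY.Jm n Q) := by
      rw [J_eq] at hgP
      have e1 : (Ω⁻¹).transpose * Ω.transpose = 1 := by
        rw [← Matrix.transpose_mul, Matrix.mul_nonsing_inv _ hΩd, Matrix.transpose_one]
      calc κ.transpose * Y119.HY.cm (Y119.HY.Jm n Q) * κ = (Ω⁻¹).transpose *
            (g * (Ω.transpose * Y119.HY.cm (Y119.HY.Jm n Q) * Ω) * g.transpose) * Ω⁻¹ := by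
            rw [hκd, Matrix.transpose_mul, Matrix.transpose_mul, Matrix.transpose_transpose]
            simp only [Matrix.mul_assoc]
        _ = ((Ω⁻¹).transpose * Ω.transpose) * Y119.HY.cm (Y119.HY.Jm n Q) * (Ω * Ω⁻¹) := by
            rw [hgP]
            simp only [Matrix.mul_assoc]
            rfl
        _ = _ := by rw [e1, Matrix.mul_nonsing_inv _ hΩd, Matrix.one_mul, Matrix.mul_one]
    have hgκ : Ω * g.transpose = κ * Ω := by
      rw [hκd, Matrix.mul_assoc _ Ω⁻¹, Matrix.nonsing_inv_mul _ hΩd, Matrix.mul_one]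
    have hpos : ∀ {y : ℝ}, (x₀ : ℝ) < y → 0 < y := fun {y} hy => lt_trans (by exact_mod_cast hx₀) hy
    have h3 := T44.GL.gal_hyp hQ (x₀ := x₀) (by exact_mod_cast hx₀) hκ hgκ F (fun x hx => by
      have h4 := hF x hx
      rw [per_eq h2 _ _ (hpos hx)] at h4
      exact h4) x hx
    rw [per_eq h2 _ _ (hpos hx)]
    exact h3
  have hcl : Classical (s + extra (lower n)) B := by
    have h2 : extra (lower n) ≤ 1 := by
      unfold extra
      split_ifs <;> omega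
    exact Or.inr (Or.inl ⟨hBs, by omega, by omega⟩)
  have h2 := (h1 B hcl hbig K hKf hKD S hSs hcS).2 (by omega) rfl (fun _ => J β) (fun _ => (w : ℤ)) (fun _ => 0)
    (fun _ => 1) (by
      rintro y ⟨-, z, hz, X, rfl, hX⟩
      exact ⟨z, hz, X, rfl, fun l => ⟨by rw [zpow_natCast]; exact hX l, Or.inl hBs⟩⟩)
  rintro y ⟨z, hz, X, rfl, hX⟩
  have h3 : total (z • (1 : Matrix (Fin 1) (Fin 1) ℂ)) X ∈ S := by
    rw [h2]
    exact ⟨z, hz, X, rfl, fun l => ⟨by rw [zpow_natCast]; exact hX l, Or.inl hBs⟩⟩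
  exact h3.1

theorem Yinf_eq {m : ℕ} {a : Fin m → ℕ} {d : ℕ} {t : ℚ} (ht : (t : ℝ) ≠ 0) :
    Yinf a d t = T44.GB.Yu (2 * m) (Y119.HY.QB fun l => (a l : ℚ) / d) (T44.GO.gx a d) d (T44.GO.ex a)
      (Complex.log (1 / ((t : ℝ) : ℂ))) := by
  rw [T44.GB.Yu_num (t := ((t : ℝ) : ℂ)) (by exact_mod_cast ht) (T44.GB.exp_log_inv ht), Complex.ofReal_ratCast]
  rfl

theorem lead_eq {m : ℕ} (a : Fin m → ℕ) (d : ℕ) : lead a d = Y119.HY.cm (T44.GO.g0 (T44.GO.gx a d)) := by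
  ext i j
  rw [Y119.HY.cm_apply]
  rfl

theorem skew_of {n : ℕ} {J L : Matrix (Fin n) (Fin n) ℂ} (h : J.transpose = -J) :
    (L.transpose * J * L).transpose = -(L.transpose * J * L) := by
  rw [Matrix.transpose_mul, Matrix.transpose_mul, Matrix.transpose_transpose, h]
  simp only [Matrix.mul_neg, Matrix.neg_mul, Matrix.mul_assoc]

/-- the hypergeometric families near `z = ∞` -/
theorem orbi (m d : ℕ) (a : Fin m → ℕ) (hm : 2 ≤ m) (hi : Function.Injective a) (ha : ∀ j, 0 < a j ∧ 2 * a j < d) :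
    ∃ G : ℕ, ∀ (w : ℕ) (ω : Fin (2 * m) → ℂ) (V B : Matrix (Fin (2 * m)) (Fin (2 * m)) ℂ), 1 ≤ w → (∀ j, ω j ≠ 0) →
      IsUnit V → (∀ i j, IsAlgebraic ℚ (V i j)) →
      (lead a d * (Matrix.diagonal ω * V)).transpose * J (fun l => (a l : ℚ) / d) * (lead a d * (Matrix.diagonal ω * V)) =
        twoPiI ^ w • B →
      ∀ k D : ℕ, ∃ (c : ℝ) (N₀ : ℕ), 0 < c ∧ ∀ M : ℕ, N₀ ≤ M → ∀ t : Fin k → ℚ, InWindow G M c t →
        ∀ K : Subfield ℂ, FiniteDimensional ℚ K → Module.finrank ℚ K ≤ D → (∀ i j, B i j ∈ K) →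
          Symplectic B ∧ IsOmega K (total 1 fun l => (Yinf a d (t l) * (Matrix.diagonal ω * V)).transpose)
            (similitudes k (fun l => (a l : ℚ) / d) B) := by
  have hd0 : d ≠ 0 := by
    have := ha ⟨0, by omega⟩
    omega
  have hOD := T44.GO.od_of (by omega) hi ha
  set β : Fin m → ℚ := fun l => (a l : ℚ) / d with hβ
  set Q := Y119.HY.QB β with hQd
  set n := 2 * m with hn
  set γ := T44.GO.gx a d with hγ
  set aa := T44.GO.ex a with haad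
  have haa : ∀ j, (aa j : ℚ) = d * γ j := T44.GO.gx_mul hd0
  have hn0 : 0 < n := by omega
  obtain ⟨T, A, hT, hode⟩ := T44.GO.ode_int0 hOD hd0 haa
  obtain ⟨x₀, G, hx₀, hmain⟩ := core n T A 0 (T44.GO.Zz n Q γ d hd0 aa) (T44.GO.Ww n Q γ d hd0 aa) hT
    (zero_pow hn0.ne') hode (T44.GO.Zz_zero hOD hd0 haa) (T44.GO.Ww_mul hOD hd0 haa)
    (T44.GO.SDc_Zz T44.GO.SDC.main hOD hd0) (T44.GO.SDc_Ww T44.GO.SDC.main hOD hd0)
  refine ⟨G, fun w ω V B hw hω hV hVa hB k D => ?_⟩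
  have hKalg : ∀ K : Subfield ℂ, FiniteDimensional ℚ K → ∀ x ∈ K, IsAlgebraic ℚ x := by
    intro K hK x hx
    have h1 : IsAlgebraic ℚ (⟨x, hx⟩ : K) := Algebra.IsAlgebraic.isAlgebraic _
    exact (isAlgebraic_algebraMap_iff (A := ℂ) (algebraMap K ℂ).injective).2 h1
  by_cases hBa : ∀ i j, IsAlgebraic ℚ (B i j)
  swap
  · exact ⟨1, 0, one_pos, fun M _ t _ K hK _ hBK => absurd (fun i j => hKalg K hK _ (hBK i j)) hBa⟩
  obtain ⟨Ω, hΩdef⟩ : ∃ Ω : Matrix (Fin n) (Fin n) ℂ, Ω = Matrix.diagonal ω * V := ⟨_, rfl⟩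
  rw [← hΩdef] at hB ⊢
  have hV' : V.det ≠ 0 := ((Matrix.isUnit_iff_isUnit_det _).1 hV).ne_zero
  have hΩd : IsUnit Ω.det := by
    rw [hΩdef, Matrix.det_mul, Matrix.det_diagonal]
    exact (isUnit_iff_ne_zero.2 (mul_ne_zero (Finset.prod_ne_zero_iff.2 fun j _ => hω j) hV'))
  have hΩ : IsUnit Ω := (Matrix.isUnit_iff_isUnit_det _).2 hΩd
  have hP0 : Y119.HY.cm (T44.GO.P0 n Q γ) = (lead a d).transpose * J β * lead a d := by
    rw [lead_eq, J_eq]
    unfold T44.GO.P0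
    rw [Y119.HY.cm_mul, Y119.HY.cm_mul]
    rfl
  have hform : Ω.transpose * Y119.HY.cm (T44.GO.P0 n Q γ) * Ω = twoPiI ^ w • B := by
    rw [hP0, ← hB, Matrix.transpose_mul]
    simp only [Matrix.mul_assoc]
  have h2pi : (twoPiI : ℂ) ≠ 0 := Complex.two_pi_I_ne_zero
  have hc0 : (twoPiI : ℂ) ^ w ≠ 0 := pow_ne_zero _ h2pi
  have hPd : (Y119.HY.cm (T44.GO.P0 n Q γ)).det ≠ 0 := by
    have h1 := T44.GO.P0_det hOD
    have h2 : (Y119.HY.cm (T44.GO.P0 n Q γ)).det = (((T44.GO.P0 n Q γ).det : ℚ) : ℂ) :=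
      (RingHom.map_det (algebraMap ℚ ℂ) (T44.GO.P0 n Q γ)).symm
    rw [h2]
    exact_mod_cast h1
  -- few periods
  obtain ⟨θ, lam, hlam, halg⟩ := T44.GO.FEW.main m (by omega) γ hOD.inj (T44.GO.gx_ne ha) T44.GO.gx_neg ω hω V B
    (Y119.HY.cm (T44.GO.P0 n Q γ)) (twoPiI ^ w) hVa hBa (fun i j => by
      rw [Y119.HY.cm_apply]
      exact isAlgebraic_algebraMap (A := ℂ) (T44.GO.P0 n Q γ i j)) (fun i j hij => by
      rw [Y119.HY.cm_apply] at hij
      exact T44.GO.P0_supp hOD i j (fun h0 => hij (by rw [h0]; simp))) hPd hV' hc0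
    (by rw [← hΩdef]; exact hform)
  rw [← hΩdef] at halg
  have h0map : (0 : Matrix (Fin n) (Fin n) ℤ).map (Int.castRingHom ℂ) = 0 := Matrix.map_zero _ (map_zero _)
  have h0pow : ((0 : Matrix (Fin n) (Fin n) ℤ).map (Int.castRingHom ℂ)) ^ n = 0 := by
    rw [h0map, zero_pow hn0.ne']
  have hFP : FewPeriods m (1 : Matrix (Fin 0) (Fin 0) ℂ) Ω.transpose (0 : Matrix (Fin n) (Fin n) ℤ) := by
    refine ⟨θ, lam, 0, hlam, fun i => i.elim0, fun i j => ?_⟩
    have h1 : IsNilpotent.exp ((0 : ℂ) • (0 : Matrix (Fin n) (Fin n) ℤ).map (Int.castRingHom ℂ)) = 1 := by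
      rw [exp_eq h0pow]
      exact Y119.HY.E_zero h0pow
    rw [h1, Matrix.mul_one]
    exact halg i j
  obtain ⟨c, N₀, hc, hwin⟩ := hmain m 0 1 Ω.transpose isUnit_one
    (by rw [Matrix.isUnit_iff_isUnit_det, Matrix.det_transpose]; exact hΩd) hFP k D
  obtain ⟨C, hC1, hC⟩ := T44.GB.growth (T44.GO.SDc_Zz T44.GO.SDC.main hOD hd0 (aa := aa))
  refine ⟨c, max N₀ (C + 2), hc, fun M hM t ht K hKf hKD hBK => ?_⟩
  have htC : ∀ l, (C : ℝ) + 2 ≤ |(t l : ℝ)| := fun l => by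
    have h1 : ((C + 2 : ℕ) : ℝ) ≤ (M : ℝ) := by exact_mod_cast (le_max_right N₀ (C + 2)).trans hM
    push_cast at h1
    exact h1.trans (win_abs ht l)
  have hC0 : (0 : ℝ) ≤ C := by positivity
  have hC1' : (1 : ℝ) ≤ C := by exact_mod_cast hC1
  have ht0 : ∀ l, (t l : ℝ) ≠ 0 := fun l h0 => by
    have := htC l
    rw [h0, abs_zero] at this
    linarith
  obtain ⟨-, hfull⟩ := hwin M ((le_max_left _ _).trans hM) t ht
  -- the form on the Betti side
  have hJd : (J β).det ≠ 0 := by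
    rw [J_eq]
    exact Y119.HY.Jc_det hOD.qd
  have hsy : Symplectic (twoPiI ^ w • B) := by
    have h1 : (J β).transpose = -J β := by
      rw [J_eq]
      exact Y119.HY.Jc_skew hOD.qd
    rw [← hB]
    refine ⟨?_, ?_⟩
    · rw [hP0, Matrix.det_mul, Matrix.det_mul, Matrix.det_transpose] at hPd
      have h2 : (lead a d).det ≠ 0 := fun h0 => hPd (by rw [h0]; simp)
      rw [Matrix.isUnit_iff_isUnit_det, Matrix.det_mul, Matrix.det_mul, Matrix.det_transpose, Matrix.det_mul]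
      exact isUnit_iff_ne_zero.2 (mul_ne_zero (mul_ne_zero (mul_ne_zero h2 hΩd.ne_zero) hJd) (mul_ne_zero h2 hΩd.ne_zero))
    · exact skew_of h1
  have hBs : Symplectic B := by
    have h2 : B = (twoPiI ^ w)⁻¹ • (twoPiI ^ w • B) := by
      rw [smul_smul, inv_mul_cancel₀ hc0, one_smul]
    have h3 : B.transpose = -B := by
      have h4 := hsy.2
      rw [Matrix.transpose_smul, ← smul_neg] at h4
      have h5 := congrArg (fun X => (twoPiI ^ w)⁻¹ • X) h4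
      simp only [smul_smul] at h5
      rwa [inv_mul_cancel₀ hc0, one_smul, one_smul] at h5
    refine ⟨?_, h3⟩
    have h4 := hsy.1
    rw [Matrix.isUnit_iff_isUnit_det, Matrix.det_smul] at h4
    rw [Matrix.isUnit_iff_isUnit_det]
    exact isUnit_of_mul_isUnit_right h4
  have hBd : B.det ≠ 0 := ((Matrix.isUnit_iff_isUnit_det _).1 hBs.1).ne_zero
  have hJK : ∀ i j, J β i j ∈ K := by
    intro i j
    rw [J_eq, Y119.HY.cm_apply]
    exact SubfieldClass.ratCast_mem K _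
  have hrs : similitudes k β B = T44.GO.RS k (J β) B := rfl
  have hsub : IsSubtorsor K (similitudes k β B) :=
    Y123.ST.subT_iff.2 (by rw [hrs]; exact T44.GO.rs_sub hn0 hBd hJd hJK hBK)
  -- the change of the basis
  set R := Y119.HY.cm (T44.GO.g0 γ) with hR
  have hRd : R.det ≠ 0 := by
    have h2 : R.det = (((T44.GO.g0 γ).det : ℚ) : ℂ) := (RingHom.map_det (algebraMap ℚ ℂ) (T44.GO.g0 γ)).symm
    rw [h2]
    exact_mod_cast T44.GO.g0_det hOD
  have hRi : (Y119.HY.cm (T44.GO.g0 γ)⁻¹).transpose * R.transpose = 1 := by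
    rw [← Matrix.transpose_mul, hR, ← Y119.HY.cm_mul, T44.GO.g0_mul hOD]
    have h1 : Y119.HY.cm (1 : Matrix (Fin n) (Fin n) ℚ) = 1 := map_one _
    rw [h1, Matrix.transpose_one]
  set W : Fin k → Matrix (Fin n) (Fin n) ℂ := fun l =>
    Matrix.diagonal (fun b => ((t l : ℚ) : ℂ) ^ (-aa b)) * R.transpose with hW
  have htc : ∀ l, ((t l : ℚ) : ℂ) ≠ 0 := fun l => by
    exact_mod_cast ht0 l
  have hper : ∀ l, periods Ω.transpose (0 : Matrix (Fin n) (Fin n) ℤ) (T44.GO.Zz n Q γ d hd0 aa) (t l) * W l =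
      (Yinf a d (t l) * Ω).transpose := by
    intro l
    have hE0 : ∀ v : ℂ, Y119.HY.E (0 : Matrix (Fin n) (Fin n) ℂ) v = 1 := by
      intro v
      have h1 := exp_eq (n := n) (N := 0) (zero_pow hn0.ne') v
      rw [smul_zero, IsNilpotent.exp_zero] at h1
      exact h1.symm
    rw [per_gen h0pow _ _ (ht0 l), h0map, Yinf_eq (ht0 l), Matrix.transpose_mul]
    unfold T44.GB.Pu
    rw [hE0, Matrix.mul_one]
    have h1 := T44.GB.Zu_eq T44.GO.PGR.main hOD hd0 haa (C := C) (x₀ := C) (by linarith) hC le_rfl hC1'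
      (T44.GB.log_mem (t := (t l : ℝ)) (by linarith) (by linarith [htC l]))
    rw [← h1, hW]
    have h2 : (fun b => Complex.exp (aa b * Complex.log (1 / ((t l : ℝ) : ℂ)))) = fun b => ((t l : ℚ) : ℂ) ^ (-aa b) := by
      funext b
      rw [Complex.exp_int_mul, T44.GB.exp_log_inv (ht0 l), one_div, inv_zpow, zpow_neg, Complex.ofReal_ratCast]
    rw [h2]
    simp only [Matrix.mul_assoc]
    rfl
  have hWd : ∀ l, IsUnit (W l).det := by
    intro l
    rw [hW]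
    simp only
    rw [Matrix.det_mul, Matrix.det_diagonal, Matrix.det_transpose]
    exact isUnit_iff_ne_zero.2 (mul_ne_zero (Finset.prod_ne_zero_iff.2 fun b _ => zpow_ne_zero _ (htc l)) hRd)
  have hWK : ∀ x y, (total (1 : Matrix (Fin 0) (Fin 0) ℂ) W) x y ∈ K := by
    have h1 : ∀ l i j, W l i j ∈ K := by
      intro l i j
      rw [hW]
      simp only
      rw [Matrix.diagonal_mul]
      refine mul_mem (zpow_mem (SubfieldClass.ratCast_mem K _) _) ?_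
      rw [Matrix.transpose_apply, hR, Y119.HY.cm_apply]
      exact SubfieldClass.ratCast_mem K _
    intro x y
    unfold total
    rcases x with x | ⟨x, i⟩
    · exact x.elim0
    · rcases y with y | ⟨y, j⟩
      · exact y.elim0
      · rw [Matrix.fromBlocks_apply₂₂, Matrix.blockDiagonal_apply]
        split_ifs
        · exact h1 _ _ _
        · exact zero_mem K
  have hWu : IsUnit (total (1 : Matrix (Fin 0) (Fin 0) ℂ) W) := Y123.SR.E2_isUnit isUnit_one hWd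
  have hformP : ∀ l, (Yinf a d (t l) * Ω).transpose * J β * ((Yinf a d (t l) * Ω).transpose).transpose = twoPiI ^ w • B := by
    intro l
    have h2 := T44.GB.Yu_form T44.GO.PGR.main hOD hd0 haa
      (T44.GB.log_mem (t := (t l : ℝ)) one_pos (by linarith [htC l]))
    rw [Matrix.transpose_transpose, Matrix.transpose_mul, Yinf_eq (ht0 l), J_eq]
    rw [← hform, ← h2]
    simp only [Matrix.mul_assoc]
    rfl
  have hmem : total (1 : Matrix (Fin 0) (Fin 0) ℂ) (fun l => (Yinf a d (t l) * Ω).transpose) ∈ similitudes k β B :=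
    ⟨twoPiI ^ w, hc0, _, rfl, hformP⟩
  refine ⟨hBs, hsub, hmem, fun T hT hcT => ?_⟩
  have hS : TH127.PT.IsSubtorsor K (T ∩ similitudes k β B) :=
    Y123.GN.inter_sub (Y123.ST.subT_iff.1 hT) (Y123.ST.subT_iff.1 hsub)
  have hS' : IsSubtorsor K {y | y * total (1 : Matrix (Fin 0) (Fin 0) ℂ) W ∈ T ∩ similitudes k β B} :=
    Y123.ST.subT_iff.2 (T44.GO.mulr_sub hS hWu hWK)
  have hmulW : ∀ X : Fin k → Matrix (Fin n) (Fin n) ℂ, total (1 : Matrix (Fin 0) (Fin 0) ℂ) X * total 1 W =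
      total 1 fun l => X l * W l := by
    intro X
    have h1 := Y123.SR.E2_mul (1 : Matrix (Fin 0) (Fin 0) ℂ) 1 X W
    rw [Matrix.mul_one] at h1
    exact h1
  have hcS : total (1 : Matrix (Fin 0) (Fin 0) ℂ) (fun l => periods Ω.transpose (0 : Matrix (Fin n) (Fin n) ℤ)
      (T44.GO.Zz n Q γ d hd0 aa) (t l)) ∈ {y | y * total (1 : Matrix (Fin 0) (Fin 0) ℂ) W ∈ T ∩ similitudes k β B} := by
    rw [Set.mem_ofPred_eq, hmulW]
    have h1 : (fun l => periods Ω.transpose (0 : Matrix (Fin n) (Fin n) ℤ) (T44.GO.Zz n Q γ d hd0 aa) (t l) * W l) =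
        fun l => (Yinf a d (t l) * Ω).transpose := funext hper
    rw [h1]
    exact ⟨hcT, hmem⟩
  have hbig : BigMonodromy Ω.transpose (0 : Matrix (Fin n) (Fin n) ℤ) (T44.GO.Zz n Q γ d hd0 aa) x₀ B := by
    intro g _ hg F hF x hx
    have hgP : g * (Ω.transpose * Y119.HY.cm (T44.GO.P0 n Q γ) * Ω) * g.transpose =
        Ω.transpose * Y119.HY.cm (T44.GO.P0 n Q γ) * Ω := by
      rw [hform, Matrix.mul_smul, Matrix.smul_mul, hg]
    set κ := Ω * g.transpose * Ω⁻¹ with hκd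
    have hκ : κ.transpose * Y119.HY.cm (T44.GO.P0 n Q γ) * κ = Y119.HY.cm (T44.GO.P0 n Q γ) := by
      have e1 : (Ω⁻¹).transpose * Ω.transpose = 1 := by
        rw [← Matrix.transpose_mul, Matrix.mul_nonsing_inv _ hΩd, Matrix.transpose_one]
      calc κ.transpose * Y119.HY.cm (T44.GO.P0 n Q γ) * κ = (Ω⁻¹).transpose *
            (g * (Ω.transpose * Y119.HY.cm (T44.GO.P0 n Q γ) * Ω) * g.transpose) * Ω⁻¹ := by
            rw [hκd, Matrix.transpose_mul, Matrix.transpose_mul, Matrix.transpose_transpose]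
            simp only [Matrix.mul_assoc]
        _ = ((Ω⁻¹).transpose * Ω.transpose) * Y119.HY.cm (T44.GO.P0 n Q γ) * (Ω * Ω⁻¹) := by
            rw [hgP]
            simp only [Matrix.mul_assoc]
        _ = _ := by rw [e1, Matrix.mul_nonsing_inv _ hΩd, Matrix.one_mul, Matrix.mul_one]
    have hgκ : Ω * g.transpose = κ * Ω := by
      rw [hκd, Matrix.mul_assoc _ Ω⁻¹, Matrix.nonsing_inv_mul _ hΩd, Matrix.mul_one]
    have hpos : ∀ {y : ℝ}, (x₀ : ℝ) < y → 0 < y := fun {y} hy => lt_trans (by exact_mod_cast hx₀) hy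
    have h3 := T44.GO.gal_inf T44.GO.CONT.main T44.GO.ROOT.main T44.GO.PGR.main hOD hd0 haa (x₀ := x₀)
      (by exact_mod_cast hx₀) hκ hgκ F (fun x hx => by
        have h4 := hF x hx
        rw [per_eq h0pow _ _ (hpos hx), h0map] at h4
        exact h4) x hx
    rw [per_eq h0pow _ _ (hpos hx), h0map]
    exact h3
  have hcl : Classical (m + extra (0 : Matrix (Fin n) (Fin n) ℤ)) B := by
    have h2 : extra (0 : Matrix (Fin n) (Fin n) ℤ) = 0 := if_pos rfl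
    rw [h2]
    exact Or.inr (Or.inl ⟨hBs, by omega, by omega⟩)
  have hfull2 := (hfull B hcl hbig K hKf hKD _ hS' hcS).1 (fun l => W l * J β * (W l).transpose)
  -- all points
  rintro y ⟨μ, hμ, Y, rfl, hY⟩
  have hτ : Transcendental K ((twoPiI : ℂ) ^ w) := fun h =>
    T44.GF.tp_tr (hKalg K hKf) (h.of_pow (by omega))
  obtain ⟨X, hX, hXf⟩ := T44.GO.tate0 hS hBd hJK hBK hτ ⟨hcT, hmem⟩ hformP hμ
  have hcancel : ∀ (X : Matrix (Fin n) (Fin n) ℂ) (l : Fin k), X * (W l)⁻¹ * W l = X := fun X l => by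
    rw [Matrix.mul_assoc, Matrix.nonsing_inv_mul _ (hWd l), Matrix.mul_one]
  have hformW : ∀ X : Fin k → Matrix (Fin n) (Fin n) ℂ, (∀ l, X l * J β * (X l).transpose = μ • B) →
      ∀ l, X l * (W l)⁻¹ * (W l * J β * (W l).transpose) * (X l * (W l)⁻¹).transpose = μ • B := by
    intro X hX l
    have h1 : X l * (W l)⁻¹ * (W l * J β * (W l).transpose) * (X l * (W l)⁻¹).transpose =
        (X l * (W l)⁻¹ * W l) * J β * (X l * (W l)⁻¹ * W l).transpose := by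
      rw [Matrix.transpose_mul _ (W l)]
      simp only [Matrix.mul_assoc]
    rw [h1, hcancel]
    exact hX l
  have h5 := hfull2 (fun _ => μ) 1 (fun l => X l * (W l)⁻¹) (fun l => Y l * (W l)⁻¹) (fun _ => hμ) (hformW X hXf)
    (hformW Y hY) (fun _ => Or.inl hBs) (by
      rw [Set.mem_ofPred_eq, hmulW]
      simp only [hcancel]
      exact hX)
  have h6 : total (1 : Matrix (Fin 0) (Fin 0) ℂ) (fun l => Y l * (W l)⁻¹) * total 1 W ∈ T ∩ similitudes k β B := h5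
  rw [hmulW] at h6
  simp only [hcancel] at h6
  exact h6.1

/-- general families -/
theorem general (n : ℕ) (T : Polynomial ℤ) (A : Matrix (Fin n) (Fin n) (Polynomial ℤ)) (N : Matrix (Fin n) (Fin n) ℤ)
      (Z W : Matrix (Fin n) (Fin n) ℚ⟦X⟧) (hT : T ≠ 0) (hN : N ^ n = 0)
      (hode : ∀ i j, toQ T * (X * PowerSeries.derivative ℚ (Z i j) + ∑ k, C (N i k : ℚ) * Z k j) = ∑ k, Z i k * toQ (A k j))
      (hZ0 : ∀ i j, coeff 0 (Z i j) = if i = j then 1 else 0) (hW : W * Z = 1) (hGZ : ∀ i j, GCond (Z i j))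
      (hGW : ∀ i j, GCond (W i j)) :
      ∃ x₀ G : ℕ, ∀ (s r : ℕ) (C₀ : Matrix (Fin r) (Fin r) ℂ) (Ω : Matrix (Fin n) (Fin n) ℂ), IsUnit C₀ → IsUnit Ω →
        FewPeriods s C₀ Ω N → ∀ k D : ℕ, ∃ (c : ℝ) (N₀ : ℕ), 0 < c ∧ ∀ M : ℕ, N₀ ≤ M →
          ∀ t : Fin k → ℚ, InWindow G M c t → Full D (s + extra N) C₀ Ω N Z x₀ t := by
  have hG : ∀ g : ℚ⟦X⟧, GCond g → Y113.SDc g := by
    rintro g ⟨C, h1, h2⟩
    have hC : 1 ≤ C := by
      obtain ⟨d, hd0, hd, -⟩ := h2 0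
      have : (1 : ℝ) ≤ d := by exact_mod_cast hd0
      simpa using this.trans hd
    obtain ⟨a, ha⟩ := Y678.HG.exists_two_pow C
    refine ⟨a, fun m => (h1 m).trans (pow_le_pow_left₀ (by linarith) ha _), fun m => ?_⟩
    obtain ⟨d, hd0, hd, hd'⟩ := h2 m
    exact ⟨d, hd0, hd.trans (pow_le_pow_left₀ (by linarith) ha _), hd'⟩
  obtain ⟨x₀, G, -, h⟩ := core n T A N Z W hT hN hode hZ0 hW (fun i j => hG _ (hGZ i j)) (fun i j => hG _ (hGW i j))
  exact ⟨x₀, G, h⟩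

end Pool.Agent.T44.GB.Fn
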