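import Pool.Agent.T44.GB.Ln

/-!
# The system at the negative fibres
-/

set_option autoImplicit false
set_option linter.unusedSectionVars false

open PowerSeries

namespace Pool.Agent.T44.GB

open Pool.Agent.Y113 (ps SDc SDp)
open Pool.Agent.T44.GL

variable {n : ℕ}

/-- the substitution `X ↦ -X` for power series -/
noncomputable abbrev rn : ℚ⟦X⟧ →+* ℚ⟦X⟧ := rescale (-1)

/-- the substitution `X ↦ -X` for polynomials -/
noncomputable def pn (P : Polynomial ℤ) : Polynomial ℤ := P.comp (Polynomial.C (-1) * Polynomial.X)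

theorem pn_coeff (P : Polynomial ℤ) (m : ℕ) : (pn P).coeff m = P.coeff m * (-1) ^ m :=
  Polynomial.comp_C_mul_X_coeff

theorem ps_pn (P : Polynomial ℤ) : ps (pn P) = rn (ps P) := by
  ext m
  rw [coeff_rescale]
  unfold ps
  rw [Polynomial.coeff_coe, Polynomial.coeff_coe, Polynomial.coeff_map, Polynomial.coeff_map, pn_coeff]
  simp
  ring

theorem pn_ne {P : Polynomial ℤ} (h : P ≠ 0) : pn P ≠ 0 := by
  intro h0
  apply h
  ext m
  have h1 := congrArg (fun q => Polynomial.coeff q m) h0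
  simp only [pn_coeff, Polynomial.coeff_zero] at h1
  rw [Polynomial.coeff_zero]
  exact (mul_eq_zero.1 h1).resolve_right (pow_ne_zero _ (by norm_num))

theorem rn_deriv (f : ℚ⟦X⟧) : X * d⁄dX ℚ (rn f) = rn (X * d⁄dX ℚ f) := by
  ext m
  rw [coeff_rescale]
  rcases m with _ | m
  · simp
  · rw [mul_comm X, mul_comm X, coeff_succ_mul_X, coeff_succ_mul_X, coeff_derivative, coeff_derivative, coeff_rescale]
    ring

theorem rn_C (a : ℚ) : rn (C a) = C a := by
  ext m
  rw [coeff_rescale]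
  rcases m with _ | m
  · simp
  · simp

theorem rn_coeff (f : ℚ⟦X⟧) (m : ℕ) : coeff m (rn f) = (-1) ^ m * coeff m f := coeff_rescale _ _ _

theorem rn_SDc {f : ℚ⟦X⟧} (h : SDc f) : SDc (rn f) := by
  obtain ⟨a, h1, h2⟩ := h
  refine ⟨a, fun m => ?_, fun m => ?_⟩
  · have e1 := h1 m
    rw [rn_coeff]
    push_cast
    rw [abs_mul, abs_pow, abs_neg, abs_one, one_pow, one_mul]
    exact e1
  · obtain ⟨d, hd0, hd, hd'⟩ := h2 m
    refine ⟨d, hd0, hd, fun j hj => ?_⟩
    obtain ⟨z, hz⟩ := hd' j hj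
    refine ⟨(-1) ^ j * z, ?_⟩
    rw [rn_coeff]
    push_cast
    rw [← hz]
    ring

/-- the system for `Z(-x)` -/
theorem flip {T : Polynomial ℤ} {A : Fin n → Fin n → Polynomial ℤ} {N : Matrix (Fin n) (Fin n) ℤ}
    {Z W : Matrix (Fin n) (Fin n) ℚ⟦X⟧} (h : DatL T A N Z W) :
    DatL (pn T) (fun i j => pn (A i j)) N (Matrix.of fun i j => rn (Z i j)) (Matrix.of fun i j => rn (W i j)) := by
  refine ⟨pn_ne h.ne, h.nil, fun i j => ?_, fun i j => ?_, ?_, fun i j => rn_SDc (h.gZ i j), fun i j => rn_SDc (h.gW i j)⟩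
  · have h1 := congrArg rn (h.ode i j)
    simp only [Matrix.of_apply]
    rw [ps_pn, rn_deriv]
    rw [map_mul, map_add, map_sum, map_sum] at h1
    have h2 : ∑ k, C (N i k : ℚ) * rn (Z k j) = ∑ k, rn (C (N i k : ℚ) * Z k j) := by
      refine Finset.sum_congr rfl fun k _ => ?_
      rw [map_mul, rn_C]
    have h3 : ∑ k, rn (Z i k) * ps (pn (A k j)) = ∑ k, rn (Z i k * ps (A k j)) := by
      refine Finset.sum_congr rfl fun k _ => ?_
      rw [map_mul, ps_pn]
    rw [h2, h3]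
    exact h1
  · rw [Matrix.of_apply, rn_coeff, pow_zero, one_mul]
    exact h.zero i j
  · have h1 : (W * Z).map rn = (1 : Matrix (Fin n) (Fin n) ℚ⟦X⟧).map rn := congrArg (fun M : Matrix (Fin n) (Fin n) ℚ⟦X⟧ => M.map rn) h.inv
    rw [Matrix.map_mul] at h1
    have h2 : (1 : Matrix (Fin n) (Fin n) ℚ⟦X⟧).map rn = 1 := Matrix.map_one _ (map_zero _) (map_one _)
    rw [h2] at h1
    exact h1

/-- a common bound for the coefficients -/
theorem growth {Z : Matrix (Fin n) (Fin n) ℚ⟦X⟧} (h : ∀ i j, SDc (Z i j)) :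
    ∃ C : ℕ, 1 ≤ C ∧ ∀ i j m, |((coeff m (Z i j) : ℚ) : ℝ)| ≤ (C : ℝ) ^ (m + 1) := by
  choose a ha using h
  refine ⟨2 ^ (∑ i, ∑ j, a i j), Nat.one_le_two_pow, fun i j m => ?_⟩
  refine ((ha i j).1 m).trans ?_
  push_cast
  refine pow_le_pow_left₀ (by positivity) (pow_le_pow_right₀ (by norm_num) ?_) _
  exact (Finset.single_le_sum (f := fun j => a i j) (fun _ _ => Nat.zero_le _) (Finset.mem_univ j)).trans
    (Finset.single_le_sum (f := fun i => ∑ j, a i j) (fun _ _ => Nat.zero_le _) (Finset.mem_univ i))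

end Pool.Agent.T44.GB
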