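import Pool.Agent.T44.GL.Mn
import Mathlib.Analysis.Complex.LocallyUniformLimit

/-!
# Continuation to negative fibres: functions of `u = log z` on a half plane
-/

set_option autoImplicit false
set_option linter.unusedSectionVars false

open PowerSeries Filter Topology

namespace Pool.Agent.T44.GB

open Pool.Agent.Y113 (ps SDc ev)
open Pool.Agent.T44.GF Pool.Agent.T44.GL
open Pool.Agent.Y119.HY (E Ep Ep_eval E_add E_zero E_mul_neg)

variable {n : ℕ}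

/-- the half plane `|e^u| < 1 / x₀` -/
def HP (x₀ : ℝ) : Set ℂ := {u | u.re < -Real.log x₀}

theorem HP_open (x₀ : ℝ) : IsOpen (HP x₀) := isOpen_lt Complex.continuous_re continuous_const

theorem HP_conn (x₀ : ℝ) : IsPreconnected (HP x₀) := (convex_halfSpace_re_lt _).isPreconnected

theorem mem_HP {x₀ x θ : ℝ} (hx₀ : 0 < x₀) (hx : x₀ < x) : -((Real.log x : ℝ) : ℂ) + (θ : ℂ) * Complex.I ∈ HP x₀ := by
  show (-((Real.log x : ℝ) : ℂ) + (θ : ℂ) * Complex.I).re < _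
  simp only [Complex.add_re, Complex.neg_re, Complex.ofReal_re, Complex.mul_re, Complex.I_re, Complex.I_im,
    Complex.ofReal_im]
  have := Real.log_lt_log hx₀ hx
  linarith

theorem norm_exp_lt {x₀ : ℝ} (hx₀ : 0 < x₀) {u : ℂ} (hu : u ∈ HP x₀) : ‖Complex.exp u‖ < 1 / x₀ := by
  rw [Complex.norm_exp]
  have h1 : Real.exp u.re < Real.exp (-Real.log x₀) := Real.exp_lt_exp.2 hu
  rwa [Real.exp_neg, Real.exp_log hx₀, ← one_div] at h1

/-- the identity theorem -/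
theorem line_zero {f : ℂ → ℂ} {x₀ θ : ℝ} (hx₀ : 0 < x₀) (hf : AnalyticOnNhd ℂ f (HP x₀))
    (h : ∀ x : ℝ, x₀ < x → f (-((Real.log x : ℝ) : ℂ) + (θ : ℂ) * Complex.I) = 0) {u : ℂ} (hu : u ∈ HP x₀) : f u = 0 := by
  set s : ℝ := -Real.log x₀ - 1 with hs
  have hval : ∀ y : ℝ, y < -Real.log x₀ → f ((y : ℂ) + (θ : ℂ) * Complex.I) = 0 := by
    intro y hy
    have h1 : x₀ < Real.exp (-y) := by
      rw [← Real.log_lt_iff_lt_exp hx₀]
      linarith
    have h2 := h _ h1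
    rw [Real.log_exp] at h2
    push_cast at h2
    rwa [neg_neg] at h2
  have hmem : (s : ℂ) + (θ : ℂ) * Complex.I ∈ HP x₀ := by
    show ((s : ℂ) + (θ : ℂ) * Complex.I).re < _
    simp only [Complex.add_re, Complex.ofReal_re, Complex.mul_re, Complex.I_re, Complex.I_im, Complex.ofReal_im]
    rw [hs]
    linarith
  refine hf.eqOn_zero_of_preconnected_of_frequently_eq_zero (HP_conn x₀) hmem ?_ hu
  have h1 : Tendsto (fun x : ℝ => (x : ℂ) + (θ : ℂ) * Complex.I) (𝓝[≠] s) (𝓝[≠] ((s : ℂ) + (θ : ℂ) * Complex.I)) := by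
    refine tendsto_nhdsWithin_iff.2 ⟨?_, ?_⟩
    · exact ((Complex.continuous_ofReal.add continuous_const).tendsto _).mono_left nhdsWithin_le_nhds
    · filter_upwards [self_mem_nhdsWithin] with x hx hx'
      exact hx (Complex.ofReal_injective (add_right_cancel hx'))
  refine h1.frequently (Eventually.frequently ?_)
  have h2 : ∀ᶠ x : ℝ in 𝓝[≠] s, x ∈ Set.Iio (-Real.log x₀) :=
    mem_nhdsWithin_of_mem_nhds (Iio_mem_nhds (by rw [hs]; linarith))
  filter_upwards [h2] with x hx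
  exact hval x hx

/-- the values of power series at complex points -/
noncomputable def sv (c : ℕ → ℂ) (z : ℂ) : ℂ := ∑' m, c m * z ^ m

theorem sv_an {c : ℕ → ℂ} {C x₀ : ℝ} (hC : 0 < C) (hc : ∀ m, ‖c m‖ ≤ C ^ (m + 1)) (hx₀ : C ≤ x₀) :
    AnalyticOnNhd ℂ (sv c) (Metric.ball 0 (1 / x₀)) := by
  have hpos : 0 < x₀ := lt_of_lt_of_le hC hx₀
  refine DifferentiableOn.analyticOnNhd (fun z hz => ?_) Metric.isOpen_ball
  rw [mem_ball_zero_iff] at hz
  obtain ⟨r, hr1, hr2⟩ := exists_between hz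
  have hr0 : 0 < r := lt_of_le_of_lt (norm_nonneg _) hr1
  have hCr : C * r < 1 := by
    have h1 : r * x₀ < 1 := (lt_div_iff₀ hpos).1 hr2
    calc C * r ≤ x₀ * r := mul_le_mul_of_nonneg_right hx₀ hr0.le
      _ < 1 := by rw [mul_comm]; exact h1
  have hsum : Summable fun m : ℕ => C * (C * r) ^ m := (summable_geometric_of_lt_one (by positivity) hCr).mul_left C
  have hd : DifferentiableOn ℂ (fun z => ∑' m, c m * z ^ m) (Metric.ball 0 r) := by
    refine Complex.differentiableOn_tsum_of_summable_norm hsum (fun m => ?_) Metric.isOpen_ball fun m w hw => ?_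
    · exact ((differentiable_id.pow m).const_mul (c m)).differentiableOn
    · rw [mem_ball_zero_iff] at hw
      rw [norm_mul, norm_pow]
      calc ‖c m‖ * ‖w‖ ^ m ≤ C ^ (m + 1) * r ^ m :=
            mul_le_mul (hc m) (pow_le_pow_left₀ (norm_nonneg _) hw.le _) (by positivity) (by positivity)
        _ = C * (C * r) ^ m := by rw [mul_pow, pow_succ]; ring
  have hz' : z ∈ Metric.ball (0 : ℂ) r := by rw [mem_ball_zero_iff]; exact hr1
  exact ((hd z hz').differentiableAt (Metric.isOpen_ball.mem_nhds hz')).differentiableWithinAt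

theorem sv_exp {c : ℕ → ℂ} {C x₀ : ℝ} (hC : 0 < C) (hc : ∀ m, ‖c m‖ ≤ C ^ (m + 1)) (hx₀ : C ≤ x₀) :
    AnalyticOnNhd ℂ (fun u => sv c (Complex.exp u)) (HP x₀) := by
  intro u hu
  have h1 : Complex.exp u ∈ Metric.ball (0 : ℂ) (1 / x₀) := by
    rw [mem_ball_zero_iff]
    exact norm_exp_lt (lt_of_lt_of_le hC hx₀) hu
  exact (sv_an hC hc hx₀ _ h1).fun_comp analyticAt_cexp

/-- the matrix of values -/
noncomputable def Zc (Z : Fin n → Fin n → ℚ⟦X⟧) (z : ℂ) : Matrix (Fin n) (Fin n) ℂ :=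
  Matrix.of fun a b => ∑' m : ℕ, ((coeff m (Z a b) : ℚ) : ℂ) * z ^ m

theorem Zc_real (Z : Fin n → Fin n → ℚ⟦X⟧) (x : ℝ) : Zc Z ((1 / x : ℝ) : ℂ) = Zm Z x := by
  ext a b
  show ∑' m : ℕ, ((coeff m (Z a b) : ℚ) : ℂ) * ((1 / x : ℝ) : ℂ) ^ m = ((ev x (Z a b) : ℝ) : ℂ)
  unfold ev
  rw [Complex.ofReal_tsum]
  refine tsum_congr fun m => ?_
  push_cast
  ring

theorem Zc_neg {Z Z' : Fin n → Fin n → ℚ⟦X⟧} (h : ∀ i j m, coeff m (Z' i j) = (-1) ^ m * coeff m (Z i j)) (z : ℂ) :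
    Zc Z (-z) = Zc Z' z := by
  ext a b
  show ∑' m : ℕ, ((coeff m (Z a b) : ℚ) : ℂ) * (-z) ^ m = ∑' m : ℕ, ((coeff m (Z' a b) : ℚ) : ℂ) * z ^ m
  refine tsum_congr fun m => ?_
  rw [h, neg_pow]
  push_cast
  ring

theorem Zc_an {Z : Fin n → Fin n → ℚ⟦X⟧} {C x₀ : ℝ} (hC : 0 < C)
    (hc : ∀ i j m, |((coeff m (Z i j) : ℚ) : ℝ)| ≤ C ^ (m + 1)) (hx₀ : C ≤ x₀) (i j : Fin n) :
    AnalyticOnNhd ℂ (fun u => Zc Z (Complex.exp u) i j) (HP x₀) :=
  sv_exp (c := fun m => ((coeff m (Z i j) : ℚ) : ℂ)) hC (fun m => by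
    have h1 := hc i j m
    rw [← Real.norm_eq_abs] at h1
    have h2 : ‖((coeff m (Z i j) : ℚ) : ℂ)‖ = ‖((coeff m (Z i j) : ℚ) : ℝ)‖ := by
      rw [← Complex.ofReal_ratCast, Complex.norm_real]
    rw [h2]
    exact h1) hx₀

/-- the period matrix as a function of `u = log z` -/
noncomputable def Pu (Ω Nc : Matrix (Fin n) (Fin n) ℂ) (Z : Fin n → Fin n → ℚ⟦X⟧) (u : ℂ) : Matrix (Fin n) (Fin n) ℂ :=
  Ω * E Nc u * Zc Z (Complex.exp u)

theorem E_an (Nc : Matrix (Fin n) (Fin n) ℂ) (S : Set ℂ) (i j : Fin n) : AnalyticOnNhd ℂ (fun u => E Nc u i j) S := by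
  have h1 : (fun u => E Nc u i j) = fun u => (Ep Nc i j).eval u := by
    funext u
    rw [← Ep_eval, Matrix.map_apply]
  rw [h1]
  exact fun u _ => (Polynomial.differentiable _).analyticAt u

theorem Pu_an {Ω Nc : Matrix (Fin n) (Fin n) ℂ} {Z : Fin n → Fin n → ℚ⟦X⟧} {C x₀ : ℝ} (hC : 0 < C)
    (hc : ∀ i j m, |((coeff m (Z i j) : ℚ) : ℝ)| ≤ C ^ (m + 1)) (hx₀ : C ≤ x₀) (i j : Fin n) :
    AnalyticOnNhd ℂ (fun u => Pu Ω Nc Z u i j) (HP x₀) := by
  unfold Pu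
  simp only [Matrix.mul_apply]
  exact Finset.analyticOnNhd_fun_sum _ fun l _ =>
    (Finset.analyticOnNhd_fun_sum _ fun c _ => analyticOnNhd_const.mul (E_an Nc _ c l)).mul (Zc_an hC hc hx₀ l j)

theorem rel_an {Ω Nc : Matrix (Fin n) (Fin n) ℂ} {Z : Fin n → Fin n → ℚ⟦X⟧} {C x₀ : ℝ} (hC : 0 < C)
    (hc : ∀ i j m, |((coeff m (Z i j) : ℚ) : ℝ)| ≤ C ^ (m + 1)) (hx₀ : C ≤ x₀)
    (F : MvPolynomial (Option (Option (Fin n × Fin n))) ℂ) :
    AnalyticOnNhd ℂ (fun u => MvPolynomial.eval (pt (Complex.exp u) (-u) (Pu Ω Nc Z u)) F) (HP x₀) := by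
  have hpt : ∀ o, AnalyticOnNhd ℂ (fun u => pt (Complex.exp u) (-u) (Pu Ω Nc Z u) o) (HP x₀) := by
    intro o
    rcases o with _ | _ | p
    · exact fun u _ => analyticAt_cexp
    · exact fun u _ => analyticAt_id.neg
    · exact Pu_an hC hc hx₀ p.1 p.2
  induction F using MvPolynomial.induction_on with
  | C a =>
    simp only [MvPolynomial.eval_C]
    exact analyticOnNhd_const
  | add p q hp hq =>
    simp only [map_add]
    exact hp.add hq
  | mul_X p i hp =>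
    simp only [map_mul, MvPolynomial.eval_X]
    exact hp.mul (hpt i)

theorem Pu_pos {Ω Nc : Matrix (Fin n) (Fin n) ℂ} {Z : Fin n → Fin n → ℚ⟦X⟧} {x : ℝ} (hx : 0 < x) :
    Pu Ω Nc Z (-((Real.log x : ℝ) : ℂ)) = PL Ω Nc Z x := by
  unfold Pu PL
  rw [← Zc_real, Complex.exp_neg, ← Complex.ofReal_exp, Real.exp_log hx]
  congr 2
  push_cast
  rw [one_div]

theorem exp_pos' {x : ℝ} (hx : 0 < x) : Complex.exp (-((Real.log x : ℝ) : ℂ)) = ((1 / x : ℝ) : ℂ) := by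
  rw [Complex.exp_neg, ← Complex.ofReal_exp, Real.exp_log hx]
  push_cast
  rw [one_div]

theorem exp_neg' {x : ℝ} (hx : 0 < x) :
    Complex.exp (-((Real.log x : ℝ) : ℂ) + ((Real.pi : ℝ) : ℂ) * Complex.I) = -((1 / x : ℝ) : ℂ) := by
  rw [Complex.exp_add, exp_pos' hx, Complex.exp_pi_mul_I]
  ring

theorem Pu_neg {Ω Nc : Matrix (Fin n) (Fin n) ℂ} (hN : Nc ^ n = 0) {Z Z' : Fin n → Fin n → ℚ⟦X⟧}
    (h : ∀ i j m, coeff m (Z' i j) = (-1) ^ m * coeff m (Z i j)) {x : ℝ} (hx : 0 < x) :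
    Pu Ω Nc Z (-((Real.log x : ℝ) : ℂ) + ((Real.pi : ℝ) : ℂ) * Complex.I) =
      PL (Ω * E Nc (((Real.pi : ℝ) : ℂ) * Complex.I)) Nc Z' x := by
  unfold Pu PL
  rw [exp_neg' hx, Zc_neg h, Zc_real, Matrix.mul_assoc Ω (E Nc (((Real.pi : ℝ) : ℂ) * Complex.I)), ← E_add hN,
    add_comm (((Real.pi : ℝ) : ℂ) * Complex.I)]

/-- the substitution -/
noncomputable def sn : Option (Option (Fin n × Fin n)) → MvPolynomial (Option (Option (Fin n × Fin n))) ℂ
  | none => -MvPolynomial.X none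
  | some none => MvPolynomial.X (some none) + MvPolynomial.C (((Real.pi : ℝ) : ℂ) * Complex.I)
  | some (some p) => MvPolynomial.X (some (some p))

theorem sn_eval (z v : ℂ) (M : Matrix (Fin n) (Fin n) ℂ) (F : MvPolynomial (Option (Option (Fin n × Fin n))) ℂ) :
    MvPolynomial.eval (pt z v M) (MvPolynomial.aeval sn F) =
      MvPolynomial.eval (pt (-z) (v + ((Real.pi : ℝ) : ℂ) * Complex.I) M) F := by
  have h0 := Pool.Agent.Y123.GN.aeval_comp sn F (pt z v M)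
  rw [MvPolynomial.aeval_eq_eval] at h0
  refine Eq.trans h0 ?_
  congr 2
  funext o
  rcases o with _ | _ | p
  · show MvPolynomial.aeval _ (-MvPolynomial.X none) = _
    rw [map_neg, MvPolynomial.aeval_X]
    rfl
  · show MvPolynomial.aeval _ (MvPolynomial.X (some none) + MvPolynomial.C _) = _
    rw [map_add, MvPolynomial.aeval_X, MvPolynomial.aeval_C]
    rfl
  · show MvPolynomial.aeval _ (MvPolynomial.X (some (some p))) = _
    rw [MvPolynomial.aeval_X]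
    rfl

/-- **the Galois group of the negative fibres** -/
theorem gal_neg {Ω Nc g : Matrix (Fin n) (Fin n) ℂ} (hN : Nc ^ n = 0) {Z Z' : Fin n → Fin n → ℚ⟦X⟧}
    (h : ∀ i j m, coeff m (Z' i j) = (-1) ^ m * coeff m (Z i j)) {C x₀ : ℝ} (hC : 0 < C)
    (hc : ∀ i j m, |((coeff m (Z i j) : ℚ) : ℝ)| ≤ C ^ (m + 1)) (hx₀ : C ≤ x₀) (hg : GalL Ω Nc Z x₀ g) :
    GalL (Ω * E Nc (((Real.pi : ℝ) : ℂ) * Complex.I)) Nc Z' x₀ g := by
  intro F hF x hx
  have hpos : 0 < x₀ := lt_of_lt_of_le hC hx₀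
  have hx0 : 0 < x := hpos.trans hx
  set G := MvPolynomial.aeval sn F with hG
  have h1 : ∀ y : ℝ, x₀ < y → MvPolynomial.eval (pt ((1 / y : ℝ) : ℂ) ((Real.log y : ℝ) : ℂ) (PL Ω Nc Z y)) G = 0 := by
    intro y hy
    have hy0 : 0 < y := hpos.trans hy
    have h2 : -((Real.log y : ℝ) : ℂ) ∈ HP x₀ := by
      have := mem_HP (θ := 0) hpos hy
      simpa using this
    have h3 := line_zero (θ := Real.pi) hpos (rel_an (Ω := Ω) (Nc := Nc) hC hc hx₀ G) (fun s hs => by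
      have hs0 : 0 < s := hpos.trans hs
      rw [Pu_neg hN h hs0, exp_neg' hs0, hG, sn_eval, neg_neg]
      have h4 := hF s hs
      have h5 : -(-((Real.log s : ℝ) : ℂ) + ((Real.pi : ℝ) : ℂ) * Complex.I) + ((Real.pi : ℝ) : ℂ) * Complex.I =
          ((Real.log s : ℝ) : ℂ) := by ring
      rw [h5]
      exact h4) h2
    rw [Pu_pos hy0, exp_pos' hy0, neg_neg] at h3
    exact h3
  have h2 := hg G h1
  have hgP : ∀ u : ℂ, Pu (g * Ω) Nc Z u = g * Pu Ω Nc Z u := fun u => by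
    unfold Pu
    simp only [Matrix.mul_assoc]
  have h3 := line_zero (θ := 0) hpos (rel_an (Ω := g * Ω) (Nc := Nc) hC hc hx₀ G) (fun s hs => by
    have hs0 : 0 < s := hpos.trans hs
    have e1 : -((Real.log s : ℝ) : ℂ) + ((0 : ℝ) : ℂ) * Complex.I = -((Real.log s : ℝ) : ℂ) := by simp
    rw [e1, hgP, Pu_pos hs0, exp_pos' hs0, neg_neg]
    exact h2 s hs) (mem_HP (θ := Real.pi) hpos hx)
  rw [hgP, Pu_neg hN h hx0, exp_neg' hx0, hG, sn_eval, neg_neg] at h3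
  have h5 : -(-((Real.log x : ℝ) : ℂ) + ((Real.pi : ℝ) : ℂ) * Complex.I) + ((Real.pi : ℝ) : ℂ) * Complex.I =
      ((Real.log x : ℝ) : ℂ) := by ring
  rw [h5] at h3
  exact h3

end Pool.Agent.T44.GB
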